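import Pool.Agent.Helper67.WI.Sgp2

/-!
# Counting the elements below the conductor
-/

set_option autoImplicit false

namespace Pool.Agent.Helper67.WI

open Finset

section tile

variable {S : AddSubmonoid ℕ} {r : ℕ} {a : Fin r → ℕ}

theorem card_nfSet (hS : {n | n ∉ S}.Finite) (hc : 1 ≤ cond S)
    (hgen : ∀ g, (∃ i, a i = g) ↔ (g ∈ gens S ∧ g ≠ mult S)) : (nfSet S a).card = mult S := by
  classical
  have hm := mult_pos hS
  have : NeZero (mult S) := ⟨by omega⟩
  have h1 : (nfSet S a).card = (univ : Finset (ZMod (mult S))).card := by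
    refine card_bij (fun x _ => psi a (mult S) x) (fun _ _ => mem_univ _) ?_ ?_
    · intro x hx y hy h
      rw [mem_nfSet hS hc hgen] at hx hy
      exact psi_inj hS hx hy h
    · intro z _
      obtain ⟨w, hw, hwx⟩ := exists_Ap hS z.val
      obtain ⟨v, hv, hvw⟩ := exists_NF hS hgen hw
      refine ⟨v, (mem_nfSet hS hc hgen v).2 hv, ?_⟩
      rw [psi_apply, hvw]
      have h2 : ((w : ℕ) : ZMod (mult S)) = ((z.val : ℕ) : ZMod (mult S)) :=
        (ZMod.natCast_eq_natCast_iff _ _ _).2 hwx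
      rw [h2, ZMod.natCast_val, ZMod.cast_id', id]
  rw [h1, card_univ, ZMod.card]

/-- the elements of `S` below the conductor -/
theorem left_eq (hS : {n | n ∉ S}.Finite) (hc : 1 ≤ cond S)
    (hgen : ∀ g, (∃ i, a i = g) ↔ (g ∈ gens S ∧ g ≠ mult S)) :
    left S = ∑ x ∈ nfSet S a, (cond S + mult S - 1 - wN a x) / mult S := by
  classical
  have hm := mult_pos hS
  have hL : {s | s ∈ S ∧ s < cond S} = (((range (cond S)).filter fun s => s ∈ S : Finset ℕ) : Set ℕ) := by
    ext s
    simp only [Set.mem_ofPred_eq, coe_filter, mem_range]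
    exact and_comm
  unfold left
  rw [hL, Set.ncard_coe_finset]
  have h2 : ∑ x ∈ nfSet S a, (cond S + mult S - 1 - wN a x) / mult S =
      ((nfSet S a).sigma fun x => range ((cond S + mult S - 1 - wN a x) / mult S)).card := by
    rw [card_sigma]
    simp
  rw [h2]
  symm
  have key : ∀ x, IsNF S a x → ∀ k, k < (cond S + mult S - 1 - wN a x) / mult S ↔
      wN a x + k * mult S < cond S := by
    intro x hx k
    have h3 := Ap_le hS hc hx.1
    rw [Nat.lt_iff_add_one_le, Nat.le_div_iff_mul_le hm, add_mul]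
    omega
  refine card_bij (fun p _ => wN a p.1 + p.2 * mult S) ?_ ?_ ?_
  · rintro ⟨x, k⟩ h
    rw [mem_sigma, mem_range, mem_nfSet hS hc hgen] at h
    rw [mem_filter, mem_range]
    exact ⟨(key x h.1 k).1 h.2, S.add_mem (wN_mem hgen x) (mul_mult_mem hS k)⟩
  · rintro ⟨x, k⟩ hx ⟨y, l⟩ hy h
    rw [mem_sigma, mem_nfSet hS hc hgen] at hx hy
    simp only at h hx hy
    have h4 : psi a (mult S) x = psi a (mult S) y := by
      rw [psi_apply, psi_apply, ZMod.natCast_eq_natCast_iff]
      have h5 : wN a x + k * mult S ≡ wN a x [MOD mult S] := by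
        unfold Nat.ModEq
        simp
      have h6 : wN a y + l * mult S ≡ wN a y [MOD mult S] := by
        unfold Nat.ModEq
        simp
      rw [← h] at h6
      exact h5.symm.trans h6
    have h7 := psi_inj hS hx.1 hy.1 h4
    subst h7
    have h8 : k * mult S = l * mult S := by omega
    have h9 := Nat.eq_of_mul_eq_mul_right hm h8
    rw [h9]
  · intro s hs
    rw [mem_filter, mem_range] at hs
    obtain ⟨w, hw, hws⟩ := exists_Ap hS s
    obtain ⟨v, hv, hvw⟩ := exists_NF hS hgen hw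
    have hle := Ap_le_of_modEq hS hw hs.2 hws
    obtain ⟨k, hk⟩ := (Nat.modEq_iff_dvd' hle).1 hws
    have hk2 : wN a v + k * mult S = s := by
      rw [hvw, mul_comm k]
      omega
    refine ⟨⟨v, k⟩, ?_, hk2⟩
    rw [mem_sigma, mem_range, mem_nfSet hS hc hgen]
    refine ⟨hv, (key v hv k).2 ?_⟩
    omega

theorem sum_rem (hS : {n | n ∉ S}.Finite) (hc : 1 ≤ cond S)
    (hgen : ∀ g, (∃ i, a i = g) ↔ (g ∈ gens S ∧ g ≠ mult S)) :
    ∑ x ∈ nfSet S a, (cond S + mult S - 1 - wN a x) % mult S = ∑ j ∈ range (mult S), j := by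
  classical
  have hm := mult_pos hS
  have hinjOn : Set.InjOn (fun x => (cond S + mult S - 1 - wN a x) % mult S) (nfSet S a : Set _) := by
    intro x hx y hy h
    rw [mem_coe, mem_nfSet hS hc hgen] at hx hy
    refine psi_inj hS hx hy ?_
    rw [psi_apply, psi_apply, ZMod.natCast_eq_natCast_iff]
    have h1 := Ap_le hS hc hx.1
    have h2 := Ap_le hS hc hy.1
    have h3 : cond S + mult S - 1 - wN a x ≡ cond S + mult S - 1 - wN a y [MOD mult S] := h
    have h4 : (cond S + mult S - 1 - wN a x) + (wN a x + wN a y) ≡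
        (cond S + mult S - 1 - wN a y) + (wN a x + wN a y) [MOD mult S] := Nat.ModEq.add_right _ h3
    have h5 : (cond S + mult S - 1 - wN a x) + (wN a x + wN a y) = (cond S + mult S - 1) + wN a y := by
      omega
    have h6 : (cond S + mult S - 1 - wN a y) + (wN a x + wN a y) = (cond S + mult S - 1) + wN a x := by
      omega
    rw [h5, h6] at h4
    exact (Nat.ModEq.add_left_cancel' _ h4).symm
  have himg : (nfSet S a).image (fun x => (cond S + mult S - 1 - wN a x) % mult S) = range (mult S) := by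
    refine eq_of_subset_of_card_le ?_ ?_
    · intro j hj
      rw [mem_image] at hj
      obtain ⟨x, _, rfl⟩ := hj
      rw [mem_range]
      exact Nat.mod_lt _ hm
    · rw [card_image_of_injOn hinjOn, card_nfSet hS hc hgen, card_range]
  rw [← himg, sum_image hinjOn]

theorem sum_def (hS : {n | n ∉ S}.Finite) (hc : 1 ≤ cond S)
    (hgen : ∀ g, (∃ i, a i = g) ↔ (g ∈ gens S ∧ g ≠ mult S)) :
    2 * ∑ x ∈ nfSet S a, (cond S + mult S - 1 - wN a x) = 2 * (mult S * left S) + mult S * (mult S - 1) := by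
  have h1 : ∑ x ∈ nfSet S a, (cond S + mult S - 1 - wN a x) =
      mult S * ∑ x ∈ nfSet S a, (cond S + mult S - 1 - wN a x) / mult S +
        ∑ x ∈ nfSet S a, (cond S + mult S - 1 - wN a x) % mult S := by
    rw [mul_sum, ← sum_add_distrib]
    refine sum_congr rfl fun x _ => ?_
    exact (Nat.div_add_mod _ _).symm
  rw [h1, ← left_eq hS hc hgen, sum_rem hS hc hgen]
  have h2 := Finset.sum_range_id_mul_two (mult S)
  linarith

/-- the identity for the sum of the losses -/
theorem identity (hS : {n | n ∉ S}.Finite) (hc : 1 ≤ cond S) (hinj : Function.Injective a)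
    (hgen : ∀ g, (∃ i, a i = g) ↔ (g ∈ gens S ∧ g ≠ mult S)) :
    2 * ((cond S : ℝ) + mult S - 1) * ∑ i, ∑ x ∈ (sgpTile hS hc hinj hgen).D,
      (sgpTile hS hc hinj hgen).tt i x =
    mult S * (2 * ((r + 1) * left S - cond S) + (r - 1) * (mult S - 1)) := by
  have hm := mult_pos hS
  rw [(sgpTile hS hc hinj hgen).sum_tt]
  have hD : (sgpTile hS hc hinj hgen).D = nfSet S a := rfl
  have hcard : (((sgpTile hS hc hinj hgen).D.card : ℕ) : ℝ) = mult S := by
    rw [hD, card_nfSet hS hc hgen]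
  have hW : ((cond S + mult S - 1 : ℕ) : ℝ) = (cond S : ℝ) + mult S - 1 := by
    rw [Nat.cast_sub (by omega)]
    push_cast
    ring
  have hW0 : (0 : ℝ) < (cond S : ℝ) + mult S - 1 := by
    rw [← hW]
    have : 0 < cond S + mult S - 1 := by omega
    exact_mod_cast this
  have hlam : ∀ x ∈ nfSet S a, (sgpTile hS hc hinj hgen).lam x =
      ((cond S + mult S - 1 - wN a x : ℕ) : ℝ) / ((cond S : ℝ) + mult S - 1) := by
    intro x hx
    rw [mem_nfSet hS hc hgen] at hx
    have h1 := Ap_le hS hc hx.1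
    unfold Tile.lam Tile.wt
    have h6 : ∑ i, (sgpTile hS hc hinj hgen).a i * (x i : ℝ) =
        ((wN a x : ℕ) : ℝ) / ((cond S + mult S - 1 : ℕ) : ℝ) := by
      unfold wN
      push_cast
      rw [sum_div]
      refine sum_congr rfl fun i _ => ?_
      show (a i : ℝ) / ((cond S + mult S - 1 : ℕ) : ℝ) * (x i : ℝ) = _
      ring
    rw [h6, Nat.cast_sub h1, hW]
    field_simp
  rw [hcard, hD, sum_congr rfl hlam, ← sum_div]
  have h7 := sum_def hS hc hgen
  have h8 : (2 : ℝ) * ((∑ x ∈ nfSet S a, (cond S + mult S - 1 - wN a x) : ℕ) : ℝ) =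
      2 * (mult S * left S) + mult S * (mult S - 1) := by
    have h9 : ((2 * ∑ x ∈ nfSet S a, (cond S + mult S - 1 - wN a x) : ℕ) : ℝ) =
      ((2 * (mult S * left S) + mult S * (mult S - 1) : ℕ) : ℝ) := by rw [h7]
    rw [Nat.cast_mul, Nat.cast_add, Nat.cast_mul, Nat.cast_mul, Nat.cast_mul (mult S) (mult S - 1),
      Nat.cast_sub (by omega : 1 ≤ mult S)] at h9
    push_cast at h9
    push_cast
    exact h9
  push_cast at h8
  have h10 : 2 * ((cond S : ℝ) + mult S - 1) * ((r + 1) * ((∑ x ∈ nfSet S a,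
      ((cond S + mult S - 1 - wN a x : ℕ) : ℝ)) / ((cond S : ℝ) + mult S - 1)) - mult S) =
      (r + 1) * (2 * ∑ x ∈ nfSet S a, ((cond S + mult S - 1 - wN a x : ℕ) : ℝ)) -
        2 * ((cond S : ℝ) + mult S - 1) * mult S := by
    field_simp
  rw [h10, h8]
  ring

end tile

end Pool.Agent.Helper67.WI
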