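import Pool.Agent.Helper67.WI.Near

/-!
# The coarse case: all losses are smaller than all weights

Then `D` is a discrete simplex `{x | |x| ≤ n}`, and a counting argument gives `n = 1`.
-/

set_option autoImplicit false

namespace Pool.Agent.Helper67.WI

open Finset

namespace Tile

variable {r : ℕ} (T : Tile r)

theorem len_eq_zero {κ : ℝ} (ha : ∀ i, κ ≤ T.a i) {x : Fin r → ℕ} (hx : x ∈ T.D) (h : T.lam x < κ) (i : Fin r) :
    T.len i x = 0 := by
  by_contra hne
  have h1 : (1 : ℝ) ≤ T.len i x := by exact_mod_cast Nat.one_le_iff_ne_zero.2 hne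
  have h2 := T.lam_eq i x
  have h3 := T.tt_nonneg hx i
  have h4 := mul_le_mul_of_nonneg_left h1 (T.apos i).le
  have h5 := ha i
  linarith

theorem len_pos {κ : ℝ} (hB : ∀ x ∈ T.D, ∀ i, T.tt i x < κ) {x : Fin r → ℕ} (hx : x ∈ T.D) (h : κ ≤ T.lam x)
    (i : Fin r) : x + Pi.single i 1 ∈ T.D := by
  rw [T.mem_iff hx]
  by_contra hne
  have h1 : T.len i x = 0 := by omega
  have h2 := T.lam_eq i x
  rw [h1] at h2
  have h3 := hB x hx i
  simp at h2
  linarith

/-- exchange -/
theorem exch {κ : ℝ} (ha : ∀ i, κ ≤ T.a i) (hB : ∀ x ∈ T.D, ∀ i, T.tt i x < κ) {x : Fin r → ℕ}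
    (hx : x ∈ T.D) (h : T.lam x < κ) {i j : Fin r} (hi : 1 ≤ x i) :
    x - Pi.single i 1 + Pi.single j 1 ∈ T.D ∧ T.lam (x - Pi.single i 1 + Pi.single j 1) < κ := by
  have h1 : x - Pi.single i 1 ∈ T.D := T.sub_mem hx _
  have h2 : κ ≤ T.lam (x - Pi.single i 1) := by
    rw [T.lam_sub_single hi]
    have := T.lam_nonneg hx
    have := ha i
    push_cast
    linarith
  have h3 := T.len_pos hB h1 h2 j
  refine ⟨h3, ?_⟩
  by_contra hlt
  push Not at hlt
  have h4 := T.len_pos hB h3 hlt i
  have h5 : x - Pi.single i 1 + Pi.single j 1 + Pi.single i 1 = x + Pi.single j 1 := by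
    rw [add_right_comm, sub_add hi]
  rw [h5, T.mem_iff hx, T.len_eq_zero ha hx h] at h4
  omega

theorem sum_add_single (x : Fin r → ℕ) (i : Fin r) (k : ℕ) :
    ∑ j, (x + Pi.single i k : Fin r → ℕ) j = ∑ j, x j + k := by
  simp only [Pi.add_apply, sum_add_distrib]
  congr 1
  rw [sum_eq_single i]
  · simp
  · intro j _ hj
    simp [Pi.single_eq_of_ne hj]
  · intro h
    exact absurd (mem_univ i) h

theorem sum_sub_single {x : Fin r → ℕ} {i : Fin r} {k : ℕ} (h : k ≤ x i) :
    ∑ j, (x - Pi.single i k : Fin r → ℕ) j + k = ∑ j, x j := by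
  rw [← sum_add_single, sub_add h]

open Classical in
theorem coarse {κ : ℝ} (hr : 2 ≤ r) (ha : ∀ i, κ ≤ T.a i) (hB : ∀ x ∈ T.D, ∀ i, T.tt i x < κ) :
    T.D.card ≤ r + 1 := by
  have hr0 : 0 < r := by omega
  set o : Fin r := ⟨0, hr0⟩ with ho
  set o' : Fin r := ⟨1, by omega⟩ with ho'
  have hoo : o ≠ o' := by
    intro h
    have := congrArg Fin.val h
    simp [ho, ho'] at this
  have h0 : (0 : Fin r → ℕ) ∈ T.D := T.down _ (T.one o) _ (fun _ => Nat.zero_le _)
  set n := T.len o 0 with hn
  have hn1 : 1 ≤ n := by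
    have := (T.mem_iff h0 o 1).1 (by rw [zero_add]; exact T.one o)
    exact this
  -- the first top element
  have hx0 : (Pi.single o n : Fin r → ℕ) ∈ T.D := by
    have := T.len_mem h0 o
    rwa [zero_add] at this
  have hx0' : T.lam (Pi.single o n) < κ := by
    by_contra hlt
    push Not at hlt
    have h1 := T.len_pos hB hx0 hlt o
    rw [← Pi.single_add] at h1
    have h2 := (T.mem_iff h0 o (n + 1)).1 (by rw [zero_add]; exact h1)
    omega
  -- all elements of size `n` are top elements
  have htop : ∀ k : ℕ, ∀ y : Fin r → ℕ, ∑ j, y j = n → y o + k = n → y ∈ T.D ∧ T.lam y < κ := by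
    intro k
    induction k with
    | zero =>
      intro y hy hyo
      have h1 : y = Pi.single o n := by
        funext j
        by_cases hj : j = o
        · subst hj
          simpa using hyo
        · rw [Pi.single_eq_of_ne hj]
          have h2 : y o + y j ≤ ∑ i, y i := by
            rw [← sum_pair (Ne.symm hj)]
            exact sum_le_sum_of_subset (subset_univ _)
          omega
      rw [h1]
      exact ⟨hx0, hx0'⟩
    | succ k ih =>
      intro y hy hyo
      obtain ⟨i, hi, hio⟩ : ∃ i, 1 ≤ y i ∧ i ≠ o := by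
        by_contra hcon
        push Not at hcon
        have h1 : ∑ j, y j = y o := by
          refine sum_eq_single o ?_ (fun h => absurd (mem_univ o) h)
          intro j _ hj
          by_contra h
          exact hj (hcon j (by omega))
        omega
      have hs := sum_sub_single hi
      have e1 : ∑ j, (y - Pi.single i 1 + Pi.single o 1 : Fin r → ℕ) j = n := by
        rw [sum_add_single]
        omega
      have e2 : (y - Pi.single i 1 + Pi.single o 1 : Fin r → ℕ) o = y o + 1 := by
        simp [Pi.single_eq_of_ne (Ne.symm hio)]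
      obtain ⟨h1, h2⟩ := ih _ e1 (by rw [e2]; omega)
      have h3 := T.exch ha hB h1 h2 (i := o) (j := i) (by rw [e2]; omega)
      have h4 : y - Pi.single i 1 + Pi.single o 1 - Pi.single o 1 + Pi.single i 1 = y := by
        rw [add_tsub_cancel_right, sub_add hi]
      rw [h4] at h3
      exact h3
  have htop' : ∀ y : Fin r → ℕ, ∑ j, y j = n → y ∈ T.D ∧ T.lam y < κ := by
    intro y hy
    have : y o ≤ ∑ j, y j := single_le_sum (fun _ _ => Nat.zero_le _) (mem_univ o)
    exact htop (n - y o) y hy (by omega)
  -- `D` is the simplex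
  have hD1 : ∀ y : Fin r → ℕ, ∑ j, y j ≤ n → y ∈ T.D := by
    intro y hy
    have h1 := (htop' (y + Pi.single o (n - ∑ j, y j)) (by rw [sum_add_single]; omega)).1
    exact T.down _ h1 _ le_self_add
  have hD2 : ∀ s : ℕ, ∀ y ∈ T.D, ∑ j, y j = s → s ≤ n := by
    intro s
    induction s with
    | zero => intro y _ _; omega
    | succ s ih =>
      intro y hy hys
      obtain ⟨i, hi⟩ : ∃ i, 1 ≤ y i := by
        by_contra hcon
        push Not at hcon
        have : ∑ j, y j = 0 := sum_eq_zero fun j _ => by have := hcon j; omega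
        omega
      have hs := sum_sub_single hi
      have h1 := T.sub_mem hy (Pi.single i 1)
      have h2 := ih _ h1 (by omega)
      by_contra hlt
      have h3 : s = n := by omega
      have h4 := htop' (y - Pi.single i 1) (by omega)
      have h5 := T.len_eq_zero ha h4.1 h4.2 i
      have h6 := (T.mem_iff h4.1 i 1).1 (by rw [sub_add hi]; exact hy)
      omega
  have hD : ∀ y : Fin r → ℕ, y ∈ T.D ↔ ∑ j, y j ≤ n := fun y => ⟨fun h => hD2 _ y h rfl, hD1 y⟩
  -- the translation by a unit vector is a permutation of `D`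
  choose nfv hnf1 hnf2 using T.nf
  have hsurj : ∀ i : Fin r, ∀ v ∈ T.D, ∃ u ∈ T.D, nfv (u + Pi.single i 1) = v := by
    intro i v hv
    have hinj : Set.InjOn (fun u => nfv (u + Pi.single i 1)) (T.D : Set (Fin r → ℕ)) := by
      intro u hu u' hu' h
      have e1 := hnf2 (u + Pi.single i 1)
      have e2 := hnf2 (u' + Pi.single i 1)
      have h' : nfv (u + Pi.single i 1) = nfv (u' + Pi.single i 1) := h
      rw [h', e2, map_add, map_add] at e1
      exact T.inj u hu u' hu' (add_right_cancel e1).symm
    have himg : T.D.image (fun u => nfv (u + Pi.single i 1)) = T.D := by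
      refine eq_of_subset_of_card_le ?_ ?_
      · intro w hw
        obtain ⟨u, _, rfl⟩ := mem_image.1 hw
        exact hnf1 _
      · rw [card_image_of_injOn hinj]
    rw [← himg] at hv
    obtain ⟨u, hu, h⟩ := mem_image.1 hv
    exact ⟨u, hu, h⟩
  choose! g hg1 hg2 using hsurj
  -- counting
  set Top := T.D.filter fun u => ∑ j, u j = n with hTop
  set P := (T.D ×ˢ (univ : Finset (Fin r))).filter fun p => ∑ j, p.1 j + 1 ≤ n ∧ p.1 p.2 = 0 with hP
  have hPle : P.card ≤ Top.card := by
    refine card_le_card_of_injOn (fun p => g p.2 p.1) ?_ ?_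
    · rintro ⟨v, i⟩ hp
      obtain ⟨h1, h2, h3⟩ := mem_filter.1 (mem_coe.1 hp)
      have hv : v ∈ T.D := (mem_product.1 h1).1
      have h2' : ∑ j, v j + 1 ≤ n := h2
      have h3' : v i = 0 := h3
      rw [mem_coe, hTop, mem_filter]
      refine ⟨hg1 i v hv, ?_⟩
      show ∑ j, g i v j = n
      have h4 := (hD _).1 (hg1 i v hv)
      by_contra hne
      have h5 : g i v + Pi.single i 1 ∈ T.D := by
        rw [hD, sum_add_single]
        omega
      have h6 : T.ψ v = T.ψ (g i v + Pi.single i 1) := by
        rw [← hnf2 (g i v + Pi.single i 1), hg2 i v hv]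
      have h7 := T.inj v hv _ h5 h6
      have h8 := congrFun h7 i
      simp only [Pi.add_apply, Pi.single_eq_same] at h8
      omega
    · rintro ⟨v, i⟩ hp ⟨v', i'⟩ hp' heq
      obtain ⟨h1, h2, h3⟩ := mem_filter.1 (mem_coe.1 hp)
      obtain ⟨h1', h2', h3'⟩ := mem_filter.1 (mem_coe.1 hp')
      have hv : v ∈ T.D := (mem_product.1 h1).1
      have hv' : v' ∈ T.D := (mem_product.1 h1').1
      have b2 : ∑ j, v j + 1 ≤ n := h2
      have b3 : v i = 0 := h3
      have b2' : ∑ j, v' j + 1 ≤ n := h2'
      have b3' : v' i' = 0 := h3'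
      have hgg : g i v = g i' v' := heq
      have e1 : T.ψ v = T.ψ (g i v) + T.ψ (Pi.single i 1) := by
        rw [← map_add, ← hnf2 (g i v + Pi.single i 1), hg2 i v hv]
      have e2 : T.ψ v' = T.ψ (g i' v') + T.ψ (Pi.single i' 1) := by
        rw [← map_add, ← hnf2 (g i' v' + Pi.single i' 1), hg2 i' v' hv']
      by_cases hii : i = i'
      · subst hii
        have : T.ψ v = T.ψ v' := by rw [e1, e2, hgg]
        rw [T.inj v hv v' hv' this]
      · exfalso
        have m1 : v + Pi.single i' 1 ∈ T.D := by
          rw [hD, sum_add_single]; omega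
        have m2 : v' + Pi.single i 1 ∈ T.D := by
          rw [hD, sum_add_single]; omega
        have e3 : T.ψ (v + Pi.single i' 1) = T.ψ (v' + Pi.single i 1) := by
          rw [map_add, map_add, e1, e2, hgg]
          abel
        have e4 := congrFun (T.inj _ m1 _ m2 e3) i
        simp only [Pi.add_apply, Pi.single_eq_same] at e4
        rw [Pi.single_eq_of_ne hii] at e4
        omega
  set Q := (Top ×ˢ (univ : Finset (Fin r))).filter fun p => 1 ≤ p.1 p.2 with hQ
  have hQP : Q.card ≤ P.card := by
    refine card_le_card_of_injOn (fun p => (p.1 - Pi.single p.2 (p.1 p.2), p.2)) ?_ ?_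
    · rintro ⟨u, i⟩ hp
      obtain ⟨h1, h2⟩ := mem_filter.1 (mem_coe.1 hp)
      have hu := mem_filter.1 (mem_product.1 h1).1
      have h2' : 1 ≤ u i := h2
      have hus : ∑ j, u j = n := hu.2
      rw [mem_coe, hP, mem_filter, mem_product]
      have h3 := sum_sub_single (x := u) (i := i) (k := u i) le_rfl
      refine ⟨⟨T.sub_mem hu.1 _, mem_univ _⟩, ?_, ?_⟩
      · show ∑ j, (u - Pi.single i (u i) : Fin r → ℕ) j + 1 ≤ n
        omega
      · show (u - Pi.single i (u i) : Fin r → ℕ) i = 0
        simp
    · rintro ⟨u, i⟩ hp ⟨u', i'⟩ hp' heq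
      obtain ⟨h1, h2⟩ := mem_filter.1 (mem_coe.1 hp)
      obtain ⟨h1', h2'⟩ := mem_filter.1 (mem_coe.1 hp')
      have hus : ∑ j, u j = n := (mem_filter.1 (mem_product.1 h1).1).2
      have hus' : ∑ j, u' j = n := (mem_filter.1 (mem_product.1 h1').1).2
      simp only [Prod.mk.injEq] at heq
      obtain ⟨h3, h4⟩ := heq
      subst h4
      have e1 := sum_sub_single (x := u) (i := i) (k := u i) le_rfl
      have e2 := sum_sub_single (x := u') (i := i) (k := u' i) le_rfl
      rw [h3] at e1
      have e3 : u i = u' i := by omega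
      have e4 := sub_add (x := u) (i := i) (k := u i) le_rfl
      have e5 := sub_add (x := u') (i := i) (k := u' i) le_rfl
      rw [h3, e3] at e4
      rw [← e4, e5]
  have hQc : Q.card = ∑ u ∈ Top, (univ.filter fun i => 1 ≤ u i).card := by
    rw [hQ, card_filter, sum_product]
    refine sum_congr rfl fun u _ => ?_
    rw [card_filter]
  -- if `n ≥ 2` there is a contradiction
  have hn2 : n = 1 := by
    by_contra hne
    have hn2 : 2 ≤ n := by omega
    have hlt : Top.card < Q.card := by
      rw [hQc, card_eq_sum_ones]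
      have hu : (Pi.single o (n - 1) + Pi.single o' 1 : Fin r → ℕ) ∈ Top := by
        rw [hTop, mem_filter]
        have h1 : ∑ j, (Pi.single o (n - 1) + Pi.single o' 1 : Fin r → ℕ) j = n := by
          rw [sum_add_single]
          have h2 := sum_add_single (0 : Fin r → ℕ) o (n - 1)
          rw [zero_add] at h2
          rw [h2]
          simp
          omega
        exact ⟨(hD _).2 h1.le, h1⟩
      refine sum_lt_sum ?_ ⟨_, hu, ?_⟩
      · intro u hu
        have hus := (mem_filter.1 hu).2
        rw [Nat.one_le_iff_ne_zero, card_ne_zero]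
        by_contra hem
        rw [not_nonempty_iff_eq_empty] at hem
        have : ∑ j, u j = 0 := sum_eq_zero fun j _ => by
          by_contra h
          have : j ∈ (univ.filter fun i => 1 ≤ u i) := mem_filter.2 ⟨mem_univ j, by omega⟩
          rw [hem] at this
          exact absurd this (notMem_empty j)
        omega
      · have hsub : ({o, o'} : Finset (Fin r)) ⊆
            univ.filter fun i => 1 ≤ (Pi.single o (n - 1) + Pi.single o' 1 : Fin r → ℕ) i := by
          intro i hi
          rw [mem_insert, mem_singleton] at hi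
          rw [mem_filter]
          refine ⟨mem_univ i, ?_⟩
          rcases hi with rfl | rfl
          · simp only [Pi.add_apply, Pi.single_eq_same]
            omega
          · simp only [Pi.add_apply, Pi.single_eq_same]
            omega
        have := card_le_card hsub
        rw [card_pair hoo] at this
        omega
    omega
  -- `D = {0, e_1, .., e_r}`
  have hsub : T.D ⊆ insert 0 (univ.image fun i : Fin r => (Pi.single i 1 : Fin r → ℕ)) := by
    intro y hy
    have h1 := (hD y).1 hy
    rw [hn2] at h1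
    rw [mem_insert, mem_image]
    by_cases hy0 : y = 0
    · exact Or.inl hy0
    · right
      obtain ⟨i, hi⟩ : ∃ i, y i ≠ 0 := by
        by_contra hcon
        push Not at hcon
        exact hy0 (funext hcon)
      refine ⟨i, mem_univ i, ?_⟩
      have hs := sum_sub_single (x := y) (i := i) (k := 1) (by omega)
      have h2 : ∑ j, (y - Pi.single i 1 : Fin r → ℕ) j = 0 := by omega
      have h3 : y - Pi.single i 1 = 0 := by
        funext j
        exact (sum_eq_zero_iff.1 h2) j (mem_univ j)
      have h4 := sub_add (x := y) (i := i) (k := 1) (by omega)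
      rw [h3, zero_add] at h4
      exact h4
  calc T.D.card ≤ _ := card_le_card hsub
    _ ≤ _ := card_insert_le _ _
    _ ≤ _ := Nat.add_le_add_right card_image_le 1
    _ = r + 1 := by simp

end Tile

end Pool.Agent.Helper67.WI
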