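import Pool.Agent.Helper67.WI.Sgp3

/-!
# Wilf's inequality for numerical semigroups with large conductor
-/

set_option autoImplicit false

namespace Pool.Agent.Helper67.WI

open Finset

theorem epsW_mul {r : ℕ} (hr : 1 ≤ r) :
    epsW r * (1024 * r * 48 ^ r * (144 * (r : ℝ) ^ 4) ^ (r + r * r)) = 1 := by
  have hr0 : (0 : ℝ) < r := by exact_mod_cast hr
  unfold epsW nuW
  set b : ℝ := 144 * (r : ℝ) ^ 4 with hb
  have hb0 : 0 < b := by positivity
  have h1 : ((1 / b) ^ r / 16 / 3) ^ r = 1 / (b ^ (r * r) * 48 ^ r) := by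
    have h2 : (1 / b) ^ r / 16 / 3 = 1 / (b ^ r * 48) := by
      rw [one_div_pow]
      field_simp
      norm_num
    rw [h2, one_div_pow, mul_pow, ← pow_mul]
  rw [h1, one_div_pow, pow_add]
  field_simp
  norm_num

theorem two_mul_le {r : ℕ} (hr : 1 ≤ r) :
    2 * (r : ℝ) ≤ epsW r * (12 * ((r : ℝ) + 1) ^ 2) ^ (2 * (r + 1) ^ 2) := by
  have hr1 : (1 : ℝ) ≤ r := by exact_mod_cast hr
  have hr0 : (0 : ℝ) < r := by linarith
  have he := epsW_mul hr
  have he0 := epsW_pos hr
  set B : ℝ := 12 * ((r : ℝ) + 1) ^ 2 with hB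
  have hB48 : 48 ≤ B := by rw [hB]; nlinarith
  have hB1 : 1 ≤ B := by linarith
  have h1 : 2 * (r : ℝ) * (1024 * r) ≤ B ^ 3 := by
    have h2 : 32 * (r : ℝ) ≤ B := by rw [hB]; nlinarith
    have h3 : (32 * (r : ℝ)) * (32 * r) ≤ B * B := mul_le_mul h2 h2 (by positivity) (by linarith)
    have h4 : (2 : ℝ) * ((32 * (r : ℝ)) * (32 * r)) ≤ B * (B * B) :=
      mul_le_mul (by linarith) h3 (by positivity) (by linarith)
    calc 2 * (r : ℝ) * (1024 * r) = 2 * ((32 * (r : ℝ)) * (32 * r)) := by ring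
      _ ≤ B * (B * B) := h4
      _ = B ^ 3 := by ring
  have h2 : (48 : ℝ) ^ r ≤ B ^ r := pow_le_pow_left₀ (by norm_num) hB48 r
  have h3 : (144 * (r : ℝ) ^ 4) ^ (r + r * r) ≤ B ^ (2 * (r + r * r)) := by
    rw [pow_mul]
    refine pow_le_pow_left₀ (by positivity) ?_ _
    have h5 : (r : ℝ) ^ 4 ≤ (r + 1) ^ 4 := pow_le_pow_left₀ hr0.le (by linarith) 4
    rw [hB]
    nlinarith
  have h6 : 2 * (r : ℝ) * (1024 * r * 48 ^ r * (144 * (r : ℝ) ^ 4) ^ (r + r * r)) ≤
      B ^ (2 * (r + 1) ^ 2) := by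
    calc 2 * (r : ℝ) * (1024 * r * 48 ^ r * (144 * (r : ℝ) ^ 4) ^ (r + r * r))
        = (2 * (r : ℝ) * (1024 * r)) * 48 ^ r * (144 * (r : ℝ) ^ 4) ^ (r + r * r) := by ring
      _ ≤ B ^ 3 * B ^ r * B ^ (2 * (r + r * r)) := by
          refine mul_le_mul (mul_le_mul h1 h2 (by positivity) (by positivity)) h3 (by positivity)
            (by positivity)
      _ = B ^ (3 + r + 2 * (r + r * r)) := by rw [← pow_add, ← pow_add]
      _ ≤ B ^ (2 * (r + 1) ^ 2) := by
          refine pow_le_pow_right₀ hB1 ?_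
          nlinarith
  have h7 := mul_le_mul_of_nonneg_left h6 he0.le
  calc 2 * (r : ℝ) = 2 * (r : ℝ) * (epsW r * (1024 * r * 48 ^ r * (144 * (r : ℝ) ^ 4) ^ (r + r * r))) := by
        rw [he, mul_one]
    _ = epsW r * (2 * (r : ℝ) * (1024 * r * 48 ^ r * (144 * (r : ℝ) ^ 4) ^ (r + r * r))) := by ring
    _ ≤ _ := h7

theorem epsW_le_one {r : ℕ} (hr : 1 ≤ r) : epsW r ≤ 1 := by
  have hr1 : (1 : ℝ) ≤ r := by exact_mod_cast hr
  have he := epsW_mul hr
  have he0 := epsW_pos hr
  have h1 : (1 : ℝ) ≤ 1024 * r * 48 ^ r * (144 * (r : ℝ) ^ 4) ^ (r + r * r) := by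
    have h2 : (1 : ℝ) ≤ 48 ^ r := one_le_pow₀ (by norm_num)
    have h3 : (1 : ℝ) ≤ (r : ℝ) ^ 4 := one_le_pow₀ hr1
    have h4 : (1 : ℝ) ≤ (144 * (r : ℝ) ^ 4) ^ (r + r * r) := one_le_pow₀ (by linarith)
    have h5 : (1 : ℝ) ≤ 1024 * r := by linarith
    exact one_le_mul_of_one_le_of_one_le (one_le_mul_of_one_le_of_one_le h5 h2) h4
  calc epsW r = epsW r * 1 := (mul_one _).symm
    _ ≤ epsW r * _ := mul_le_mul_of_nonneg_left h1 he0.le
    _ = 1 := he

section

variable {S : AddSubmonoid ℕ} {r : ℕ} {a : Fin r → ℕ}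

/-- the multiplicity is at most a power of the quotient -/
theorem mult_le_pow (hS : {n | n ∉ S}.Finite) (hc : 1 ≤ cond S) (hinj : Function.Injective a)
    (hgen : ∀ g, (∃ i, a i = g) ↔ (g ∈ gens S ∧ g ≠ mult S)) :
    (mult S : ℝ) ≤ (1 + ((cond S : ℝ) + mult S - 1) / mult S) ^ r := by
  have hm := mult_pos hS
  have hm0 : (0 : ℝ) < mult S := by exact_mod_cast hm
  have hW : ((cond S + mult S - 1 : ℕ) : ℝ) = (cond S : ℝ) + mult S - 1 := by
    rw [Nat.cast_sub (by omega)]
    push_cast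
    ring
  have hW0 : (0 : ℝ) < (cond S : ℝ) + mult S - 1 := by
    rw [← hW]
    have : 0 < cond S + mult S - 1 := by omega
    exact_mod_cast this
  have h1 := (sgpTile hS hc hinj hgen).card_le_of_ge
    (ρ := (mult S : ℝ) / ((cond S : ℝ) + mult S - 1)) (by positivity) (by
      intro i
      show _ ≤ (a i : ℝ) / ((cond S + mult S - 1 : ℕ) : ℝ)
      rw [hW]
      refine div_le_div_of_nonneg_right ?_ hW0.le
      exact_mod_cast (a_gt hgen i).le)
  have h2 : (sgpTile hS hc hinj hgen).D.card = mult S := card_nfSet hS hc hgen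
  rw [h2, one_div_div] at h1
  calc (mult S : ℝ) ≤ ((⌊((cond S : ℝ) + mult S - 1) / mult S⌋₊ + 1 : ℕ) : ℝ) ^ r := by exact_mod_cast h1
    _ ≤ _ := by
      refine pow_le_pow_left₀ (by positivity) ?_ r
      push_cast
      have := Nat.floor_le (by positivity : 0 ≤ ((cond S : ℝ) + mult S - 1) / mult S)
      linarith

theorem sum_tt_nonneg (T : Tile r) : 0 ≤ ∑ i, ∑ x ∈ T.D, T.tt i x :=
  sum_nonneg fun i _ => sum_nonneg fun _ hx => T.tt_nonneg hx i

theorem cond_le_mult_mul (hS : {n | n ∉ S}.Finite) (hc : 1 ≤ cond S)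
    (hgen : ∀ g, (∃ i, a i = g) ↔ (g ∈ gens S ∧ g ≠ mult S)) : cond S ≤ mult S * left S := by
  have hm := mult_pos hS
  have h0 : (0 : Fin r → ℕ) ∈ nfSet S a := by
    obtain ⟨w, hw, hw0⟩ := exists_Ap hS 0
    have h1 : w = 0 := by
      have := Ap_le_of_modEq hS hw S.zero_mem hw0
      omega
    subst h1
    obtain ⟨x, hx, _⟩ := exists_NF hS hgen hw
    rw [mem_nfSet hS hc hgen]
    exact IsNF_down hgen hx 0 (fun i => Nat.zero_le _)
  have h1 : (cond S + mult S - 1 - wN a 0) / mult S ≤ left S := by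
    rw [left_eq hS hc hgen]
    exact single_le_sum (f := fun x => (cond S + mult S - 1 - wN a x) / mult S)
      (fun _ _ => Nat.zero_le _) h0
  rw [wN_zero, Nat.sub_zero] at h1
  have h2 := Nat.div_add_mod (cond S + mult S - 1) (mult S)
  have h3 := Nat.mod_lt (cond S + mult S - 1) hm
  have h4 : mult S * ((cond S + mult S - 1) / mult S) ≤ mult S * left S := Nat.mul_le_mul_left _ h1
  omega

/-- the strong form for embedding dimension at least three -/
theorem strong_aux (hS : {n | n ∉ S}.Finite) (hc : 1 ≤ cond S) (hinj : Function.Injective a)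
    (hgen : ∀ g, (∃ i, a i = g) ↔ (g ∈ gens S ∧ g ≠ mult S)) (hr : 2 ≤ r) (hm : r + 1 < mult S)
    (hbig : (12 * ((r : ℝ) + 1) ^ 2) ^ (2 * (r + 1) ^ 3) < cond S) :
    (1 + 1 / (12 * ((r : ℝ) + 1) ^ 2) ^ (2 * (r + 1) ^ 2)) * cond S ≤ (r + 1) * left S := by
  have hm1 := mult_pos hS
  have hr1 : 1 ≤ r := by omega
  have hr2 : (2 : ℝ) ≤ r := by exact_mod_cast hr
  have hm0 : (0 : ℝ) < mult S := by exact_mod_cast hm1
  have hm1' : (1 : ℝ) ≤ mult S := by exact_mod_cast hm1
  have hc1 : (1 : ℝ) ≤ cond S := by exact_mod_cast hc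
  have h2 : (sgpTile hS hc hinj hgen).D.card = mult S := card_nfSet hS hc hgen
  have h1 := (sgpTile hS hc hinj hgen).main hr (by rw [h2]; exact hm)
  have hid := identity hS hc hinj hgen
  have hpow := mult_le_pow hS hc hinj hgen
  have he0 := epsW_pos hr1
  have he1 := epsW_le_one hr1
  have hK := two_mul_le hr1
  rw [h2] at h1
  set W : ℝ := (cond S : ℝ) + mult S - 1 with hW
  have hW0 : 0 < W := by rw [hW]; linarith
  have hWc : (cond S : ℝ) ≤ W := by rw [hW]; linarith
  set ε := epsW r with hε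
  set B : ℝ := 12 * ((r : ℝ) + 1) ^ 2 with hB
  have hB0 : 0 < B := by positivity
  -- the main inequality
  have hmain : 2 * W * ε ≤ 2 * ((r + 1) * left S - cond S) + (r - 1) * (mult S - 1) := by
    have h3 : 2 * W * (ε * mult S) ≤ mult S * (2 * ((r + 1) * left S - cond S) + (r - 1) * (mult S - 1)) := by
      rw [← hid]
      exact mul_le_mul_of_nonneg_left h1 (by positivity)
    have h4 : mult S * (2 * W * ε) ≤ mult S * (2 * ((r + 1) * left S - cond S) + (r - 1) * (mult S - 1)) := by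
      linarith
    exact le_of_mul_le_mul_left h4 hm0
  -- the multiplicity is small
  have hsmall : (r - 1) * ((mult S : ℝ) - 1) ≤ ε * W := by
    by_contra hcon
    push Not at hcon
    have h5 : ε * W < r * mult S := by nlinarith
    set K : ℝ := r / ε with hKdef
    have hK1 : 1 ≤ K := by
      rw [hKdef, le_div_iff₀ he0]
      linarith
    have h6 : W / mult S < K := by
      rw [hKdef, div_lt_div_iff₀ hm0 he0]
      linarith
    have h7 : 2 * K ≤ B ^ (2 * (r + 1) ^ 2) := by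
      rw [hKdef, mul_div_assoc', div_le_iff₀ he0]
      linarith
    have h8 : 1 + W / mult S ≤ B ^ (2 * (r + 1) ^ 2) := by linarith
    have h9 : (mult S : ℝ) ≤ (B ^ (2 * (r + 1) ^ 2)) ^ r :=
      hpow.trans (pow_le_pow_left₀ (by positivity) h8 r)
    have h10 : W ≤ (B ^ (2 * (r + 1) ^ 2)) ^ r * B ^ (2 * (r + 1) ^ 2) := by
      have h11 : W = mult S * (W / mult S) := by field_simp
      rw [h11]
      exact mul_le_mul h9 (by linarith) (by positivity) (by positivity)
    have h12 : (B ^ (2 * (r + 1) ^ 2)) ^ r * B ^ (2 * (r + 1) ^ 2) = B ^ (2 * (r + 1) ^ 3) := by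
      rw [← pow_succ, ← pow_mul]
      congr 1
      ring
    rw [h12] at h10
    linarith
  -- conclusion
  have hPB : 0 < B ^ (2 * (r + 1) ^ 2) := by positivity
  have h13 : 1 / B ^ (2 * (r + 1) ^ 2) ≤ ε / 2 := by
    rw [div_le_div_iff₀ hPB (by norm_num)]
    linarith
  have h14 : 1 / B ^ (2 * (r + 1) ^ 2) * cond S ≤ ε / 2 * W :=
    mul_le_mul h13 hWc (by positivity) (by positivity)
  linarith

end

/-- **Strong form**: embedding dimension at least three, not maximal. -/
theorem wilf_strong (S : AddSubmonoid ℕ) (hS : {n | n ∉ S}.Finite) (he : 3 ≤ embDim S)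
    (hm : embDim S < mult S) (hbig : (12 * embDim S ^ 2) ^ (2 * embDim S ^ 3) < cond S) :
    ((12 * embDim S ^ 2) ^ (2 * embDim S ^ 2) + 1) * cond S ≤
      (12 * embDim S ^ 2) ^ (2 * embDim S ^ 2) * (embDim S * left S) := by
  have hc : 1 ≤ cond S := by omega
  obtain ⟨r, hr, a, hinj, hgen⟩ := exists_enum hS hc
  rw [hr] at he hm hbig ⊢
  have h := strong_aux hS hc hinj hgen (by omega) hm (by exact_mod_cast hbig)
  have hB0 : (0 : ℝ) < (12 * ((r : ℝ) + 1) ^ 2) ^ (2 * (r + 1) ^ 2) := by positivity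
  have h1 := mul_le_mul_of_nonneg_left h hB0.le
  have h2 : ((12 * ((r : ℝ) + 1) ^ 2) ^ (2 * (r + 1) ^ 2) + 1) * cond S ≤
      (12 * ((r : ℝ) + 1) ^ 2) ^ (2 * (r + 1) ^ 2) * ((r + 1) * left S) := by
    refine le_trans (le_of_eq ?_) h1
    field_simp
  exact_mod_cast h2

theorem cond_zero_or (S : AddSubmonoid ℕ) : cond S = 0 ∨ 1 ≤ cond S := by omega

/-- **Wilf's inequality** for large conductor. -/
theorem wilf_large (S : AddSubmonoid ℕ) (hS : {n | n ∉ S}.Finite)
    (hbig : (12 * embDim S ^ 2) ^ (2 * embDim S ^ 3) < cond S) :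
    cond S ≤ embDim S * left S := by
  have hc : 1 ≤ cond S := by omega
  obtain ⟨r, hr, a, hinj, hgen⟩ := exists_enum hS hc
  have hm1 := mult_pos hS
  have hm1' : (1 : ℝ) ≤ mult S := by exact_mod_cast hm1
  rcases Nat.lt_or_ge (r + 1) (mult S) with hm | hm
  · rcases Nat.lt_or_ge r 2 with h2 | h2
    · have hid := identity hS hc hinj hgen
      have hpos := sum_tt_nonneg (sgpTile hS hc hinj hgen)
      have hc1 : (1 : ℝ) ≤ cond S := by exact_mod_cast hc
      have h3 : 0 ≤ (mult S : ℝ) * (2 * ((r + 1) * left S - cond S) + (r - 1) * (mult S - 1)) := by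
        rw [← hid]
        refine mul_nonneg (by linarith) hpos
      have h4 : 0 ≤ 2 * (((r : ℝ) + 1) * left S - cond S) + (r - 1) * (mult S - 1) := by
        by_contra hcon
        push Not at hcon
        nlinarith
      have h5 : ((r : ℝ) - 1) * (mult S - 1) ≤ 0 := by
        have : (r : ℝ) ≤ 1 := by exact_mod_cast (by omega : r ≤ 1)
        nlinarith
      rw [hr]
      have h6 : (cond S : ℝ) ≤ ((r : ℝ) + 1) * left S := by linarith
      exact_mod_cast h6
    · have h3 := wilf_strong S hS (by omega) (by omega) hbig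
      set P := (12 * embDim S ^ 2) ^ (2 * embDim S ^ 2) with hP
      have hP0 : 0 < P := by
        rw [hP]
        have : 0 < embDim S := by omega
        positivity
      have h4 : P * cond S ≤ P * (embDim S * left S) := by
        refine le_trans ?_ h3
        exact Nat.mul_le_mul_right _ (by omega)
      exact Nat.le_of_mul_le_mul_left h4 hP0
  · have h3 := cond_le_mult_mul hS hc hgen
    rw [hr]
    exact h3.trans (Nat.mul_le_mul_right _ hm)

theorem finite_of_cond_le (N : ℕ) : {S : AddSubmonoid ℕ | {n | n ∉ S}.Finite ∧ cond S ≤ N}.Finite := by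
  classical
  refine Set.Finite.of_injOn (f := fun S : AddSubmonoid ℕ => (range N).filter fun s => s ∈ S)
    (t := ((range N).powerset : Set (Finset ℕ))) ?_ ?_ (Finset.finite_toSet _)
  · intro S _
    rw [mem_coe, mem_powerset]
    exact filter_subset _ _
  · intro S hS T hT h
    ext s
    rcases Nat.lt_or_ge s N with h1 | h1
    · have h2 : s ∈ (range N).filter (fun s => s ∈ S) ↔ s ∈ (range N).filter (fun s => s ∈ T) := by
        rw [show (range N).filter (fun s => s ∈ S) = (range N).filter (fun s => s ∈ T) from h]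
      rw [mem_filter, mem_filter, mem_range] at h2
      constructor
      · intro h3
        exact (h2.1 ⟨h1, h3⟩).2
      · intro h3
        exact (h2.2 ⟨h1, h3⟩).2
    · exact ⟨fun _ => mem_of_cond_le hT.1 (hT.2.trans h1), fun _ => mem_of_cond_le hS.1 (hS.2.trans h1)⟩

/-- **Wilf's conjecture** holds for all but finitely many numerical semigroups of given embedding
dimension. -/
theorem wilf_finite (e : ℕ) :
    {S : AddSubmonoid ℕ | {n | n ∉ S}.Finite ∧ embDim S = e ∧ embDim S * left S < cond S}.Finite := by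
  refine (finite_of_cond_le ((12 * e ^ 2) ^ (2 * e ^ 3))).subset ?_
  rintro S ⟨h1, h2, h3⟩
  refine ⟨h1, ?_⟩
  by_contra hcon
  push Not at hcon
  rw [← h2] at hcon
  have := wilf_large S h1 hcon
  omega

end Pool.Agent.Helper67.WI
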