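import Pool.Agent.Helper67.WI.Near

/-!
# The fine case: all weights are small
-/

set_option autoImplicit false

namespace Pool.Agent.Helper67.WI

open Finset

namespace Tile

variable {r : ℕ} (T : Tile r)

open Classical in
/-- few elements have a small defect -/
theorem low {ν s : ℝ} (hr : 1 ≤ r) (ha : ∀ i, T.a i ≤ ν) (hs : 0 ≤ s) (hs2 : s ≤ 1 / 2) :
    ((T.D.filter fun x => T.lam x ≤ s).card : ℝ) ≤ 2 * r ^ 2 * (s + ν) * T.D.card := by
  have hr0 : (0 : ℝ) < r := by exact_mod_cast hr
  have hB : ∀ j : Fin r, ((T.D.filter fun x => T.lam x ≤ s ∧ 1 / (2 * r) ≤ T.a j * x j).card : ℝ) ≤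
      2 * r * (s + ν) * T.D.card := by
    intro j
    have haj := T.apos j
    obtain ⟨q, hq1, hq2, hq3⟩ := exists_gt' (T.a j) s haj hs
    have hqa : 0 < q * T.a j := lt_of_le_of_lt hs hq2
    have hq4 : q * T.a j ≤ s + ν := by
      have h1 : (q : ℝ) * T.a j = (q - 1) * T.a j + T.a j := by ring
      linarith [ha j]
    set k : ℕ := ⌊1 / (2 * r * (q * T.a j))⌋₊ with hk
    have hk1 : (k : ℝ) * (q * T.a j) ≤ 1 / (2 * r) := by
      have h1 : (k : ℝ) ≤ 1 / (2 * r * (q * T.a j)) := Nat.floor_le (by positivity)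
      calc (k : ℝ) * (q * T.a j) ≤ 1 / (2 * r * (q * T.a j)) * (q * T.a j) :=
            mul_le_mul_of_nonneg_right h1 hqa.le
        _ = 1 / (2 * r) := by
            rw [div_mul_eq_mul_div, one_mul, mul_comm (2 * (r : ℝ)), div_mul_eq_div_div,
              div_self hqa.ne']
    have hk2 : 1 / (2 * r * (q * T.a j)) < k + 1 := Nat.lt_floor_add_one _
    set B := T.D.filter fun x => T.lam x ≤ s ∧ 1 / (2 * r) ≤ T.a j * x j with hBd
    have hle : ∀ n ∈ range (k + 1), ∀ x ∈ B, n * q ≤ x j := by
      intro n hn x hx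
      rw [hBd, mem_filter] at hx
      have h1 : (n : ℝ) ≤ k := by
        have := mem_range.1 hn
        exact_mod_cast (by omega : n ≤ k)
      have h2 : (n : ℝ) * (q * T.a j) ≤ T.a j * x j :=
        (mul_le_mul_of_nonneg_right h1 hqa.le).trans (hk1.trans hx.2.2)
      have h3 : ((n * q : ℕ) : ℝ) ≤ x j := by
        by_contra h
        push Not at h
        have := mul_lt_mul_of_pos_left h haj
        push_cast at this
        nlinarith
      exact_mod_cast h3
    have hcard : (range (k + 1) ×ˢ B).card ≤ T.D.card := by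
      refine card_le_card_of_injOn (fun p => p.2 - Pi.single j (p.1 * q)) ?_ ?_
      · rintro ⟨n, x⟩ h
        rw [mem_coe, mem_product] at h
        exact mem_coe.2 (T.sub_mem (mem_filter.1 h.2).1 _)
      · rintro ⟨n, x⟩ h ⟨n', x'⟩ h' heq
        rw [mem_coe, mem_product] at h h'
        have hx := hle n h.1 x h.2
        have hx' := hle n' h'.1 x' h'.2
        have heq' : x - Pi.single j (n * q) = x' - Pi.single j (n' * q) := heq
        have hl := T.lam_sub_single hx
        have hl' := T.lam_sub_single hx'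
        rw [heq', hl'] at hl
        have b1 := mem_filter.1 h.2
        have b2 := mem_filter.1 h'.2
        have c1 := T.lam_nonneg b1.1
        have c2 := T.lam_nonneg b2.1
        have hn : n = n' := by
          push_cast at hl
          rcases lt_trichotomy n n' with hlt | heq | hlt
          · exfalso
            have h1 : (n : ℝ) + 1 ≤ n' := by exact_mod_cast hlt
            have h2 : T.lam x - T.lam x' = (n' - n) * (q * T.a j) := by linarith
            have h3 : q * T.a j ≤ (n' - n) * (q * T.a j) := by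
              nlinarith
            linarith [b1.2.1]
          · exact heq
          · exfalso
            have h1 : (n' : ℝ) + 1 ≤ n := by exact_mod_cast hlt
            have h2 : T.lam x' - T.lam x = (n - n') * (q * T.a j) := by linarith
            have h3 : q * T.a j ≤ (n - n') * (q * T.a j) := by
              nlinarith
            linarith [b2.2.1]
        subst hn
        have : x = x' := by rw [← sub_add hx, ← sub_add hx', heq']
        rw [this]
    rw [card_product, card_range] at hcard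
    have hcard' : ((k : ℝ) + 1) * B.card ≤ T.D.card := by exact_mod_cast hcard
    have hk3 : 1 ≤ 2 * r * (s + ν) * (k + 1) := by
      have h1 : 1 / (2 * r * (q * T.a j)) * (2 * r * (q * T.a j)) < (k + 1) * (2 * r * (q * T.a j)) :=
        mul_lt_mul_of_pos_right hk2 (by positivity)
      rw [div_mul_cancel₀ _ (by positivity)] at h1
      have h2 : ((k : ℝ) + 1) * (2 * r * (q * T.a j)) ≤ (k + 1) * (2 * r * (s + ν)) := by
        refine mul_le_mul_of_nonneg_left ?_ (by positivity)
        exact mul_le_mul_of_nonneg_left hq4 (by positivity)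
      linarith
    have hB0 : (0 : ℝ) ≤ B.card := Nat.cast_nonneg _
    have hsn : 0 ≤ 2 * r * (s + ν) := by
      have := T.apos j
      have := ha j
      have : 0 ≤ s + ν := by linarith
      positivity
    calc (B.card : ℝ) = 1 * B.card := by ring
      _ ≤ (2 * r * (s + ν) * (k + 1)) * B.card := mul_le_mul_of_nonneg_right hk3 hB0
      _ = 2 * r * (s + ν) * ((k + 1) * B.card) := by ring
      _ ≤ 2 * r * (s + ν) * T.D.card := mul_le_mul_of_nonneg_left hcard' hsn
  have hsub : (T.D.filter fun x => T.lam x ≤ s) ⊆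
      univ.biUnion fun j => T.D.filter fun x => T.lam x ≤ s ∧ 1 / (2 * r) ≤ T.a j * x j := by
    intro x hx
    rw [mem_filter] at hx
    rw [mem_biUnion]
    by_contra hcon
    push Not at hcon
    have h1 : ∀ j, T.a j * x j < 1 / (2 * r) := by
      intro j
      by_contra h
      push Not at h
      exact hcon j (mem_univ _) (mem_filter.2 ⟨hx.1, hx.2, h⟩)
    have h2 : T.wt x < 1 / 2 := by
      unfold wt
      have : ∑ i, T.a i * (x i : ℝ) < ∑ _i : Fin r, 1 / (2 * (r : ℝ)) := by
        refine sum_lt_sum_of_nonempty ⟨⟨0, hr⟩, mem_univ _⟩ fun i _ => h1 i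
      refine this.trans_le (le_of_eq ?_)
      rw [sum_const, card_univ, Fintype.card_fin, nsmul_eq_mul]
      field_simp
    have h3 : T.lam x = 1 - T.wt x := rfl
    linarith [hx.2]
  have h5 : ((T.D.filter fun x => T.lam x ≤ s).card : ℝ) ≤
      ∑ j : Fin r, ((T.D.filter fun x => T.lam x ≤ s ∧ 1 / (2 * r) ≤ T.a j * x j).card : ℝ) := by
    exact_mod_cast (card_le_card hsub).trans card_biUnion_le
  refine h5.trans ((sum_le_sum fun j _ => hB j).trans (le_of_eq ?_))
  rw [sum_const, card_univ, Fintype.card_fin, nsmul_eq_mul]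
  ring

open Classical in
/-- few elements have a small coordinate -/
theorem thin {ν s κ : ℝ} (hr : 1 ≤ r) (ha : ∀ i, T.a i ≤ ν) (hκ : 0 ≤ κ) (hs : 0 < s) (k : ℕ)
    (hk : k * (s + ν) + κ ≤ 1 / 2) (i : Fin r) :
    ((T.D.filter fun x => T.a i * x i < s).card : ℝ) ≤
      T.D.card / (k + 1) + (T.Bad κ).card + 2 * r ^ 2 * (k * (s + ν) + κ + ν) * T.D.card := by
  have hai := T.apos i
  have hν : 0 < ν := hai.trans_le (ha i)
  obtain ⟨q, hq1, hq2, hq3⟩ := exists_ge (T.a i) s hai hs
  have hq4 : q * T.a i ≤ s + ν := by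
    have h1 : (q : ℝ) * T.a i = (q - 1) * T.a i + T.a i := by ring
    linarith [ha i]
  have hqa : 0 < q * T.a i := hs.trans_le hq2
  set C := T.D.filter fun x => x ∉ T.Bad κ ∧ k * (s + ν) + κ < T.lam x ∧ T.a i * x i < s with hC
  have hle : ∀ n ∈ range (k + 1), ∀ x ∈ C, x + Pi.single i (n * q) ∈ T.D := by
    intro n hn x hx
    rw [hC, mem_filter] at hx
    rw [T.mem_iff hx.1]
    have h1 := T.not_Bad hx.1 hx.2.1 i
    have h2 := T.lam_eq i x
    have h3 : (n : ℝ) ≤ k := by
      have := mem_range.1 hn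
      exact_mod_cast (by omega : n ≤ k)
    have h4 : (n : ℝ) * (q * T.a i) ≤ k * (s + ν) := by
      calc (n : ℝ) * (q * T.a i) ≤ k * (q * T.a i) := mul_le_mul_of_nonneg_right h3 hqa.le
        _ ≤ k * (s + ν) := mul_le_mul_of_nonneg_left hq4 (Nat.cast_nonneg _)
    have h5 : (n : ℝ) * (q * T.a i) < T.a i * T.len i x := by linarith [hx.2.2.1]
    have h6 : ((n * q : ℕ) : ℝ) < T.len i x := by
      by_contra h
      push Not at h
      have := mul_le_mul_of_nonneg_left h hai.le
      push_cast at this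
      nlinarith
    exact (by exact_mod_cast h6 : n * q < T.len i x).le
  have hcard : (range (k + 1) ×ˢ C).card ≤ T.D.card := by
    refine card_le_card_of_injOn (fun p => p.2 + Pi.single i (p.1 * q)) ?_ ?_
    · rintro ⟨n, x⟩ h
      rw [mem_coe, mem_product] at h
      exact mem_coe.2 (hle n h.1 x h.2)
    · rintro ⟨n, x⟩ h ⟨n', x'⟩ h' heq
      rw [mem_coe, mem_product] at h h'
      have heq' : x + Pi.single i (n * q) = x' + Pi.single i (n' * q) := heq
      have b1 := mem_filter.1 h.2
      have b2 := mem_filter.1 h'.2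
      have hc := congrFun heq' i
      simp only [Pi.add_apply, Pi.single_eq_same] at hc
      have hc' : (x i : ℝ) + n * q = x' i + n' * q := by exact_mod_cast hc
      have d1 : (0 : ℝ) ≤ T.a i * x i := mul_nonneg hai.le (Nat.cast_nonneg _)
      have d2 : (0 : ℝ) ≤ T.a i * x' i := mul_nonneg hai.le (Nat.cast_nonneg _)
      have hn : n = n' := by
        rcases lt_trichotomy n n' with hlt | heq | hlt
        · exfalso
          have h1 : (n : ℝ) + 1 ≤ n' := by exact_mod_cast hlt
          have h2 : T.a i * x i - T.a i * x' i = (n' - n) * (q * T.a i) := by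
            linear_combination T.a i * hc'
          have h3 : q * T.a i ≤ (n' - n) * (q * T.a i) := by nlinarith
          linarith [b1.2.2.2]
        · exact heq
        · exfalso
          have h1 : (n' : ℝ) + 1 ≤ n := by exact_mod_cast hlt
          have h2 : T.a i * x' i - T.a i * x i = (n - n') * (q * T.a i) := by
            linear_combination -(T.a i) * hc'
          have h3 : q * T.a i ≤ (n - n') * (q * T.a i) := by nlinarith
          linarith [b2.2.2.2]
      subst hn
      have : x = x' := add_right_cancel heq'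
      rw [this]
  rw [card_product, card_range] at hcard
  have hcard' : ((k : ℝ) + 1) * C.card ≤ T.D.card := by exact_mod_cast hcard
  have hC' : (C.card : ℝ) ≤ T.D.card / (k + 1) := by
    rw [le_div_iff₀ (by positivity)]
    linarith
  have hsub : (T.D.filter fun x => T.a i * x i < s) ⊆
      C ∪ (T.Bad κ ∪ T.D.filter fun x => T.lam x ≤ k * (s + ν) + κ) := by
    intro x hx
    rw [mem_filter] at hx
    rw [mem_union, mem_union]
    by_cases hxB : x ∈ T.Bad κ
    · exact Or.inr (Or.inl hxB)
    · by_cases hl : T.lam x ≤ k * (s + ν) + κ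
      · exact Or.inr (Or.inr (mem_filter.2 ⟨hx.1, hl⟩))
      · left
        rw [hC, mem_filter]
        exact ⟨hx.1, hxB, not_le.1 hl, hx.2⟩
  have hlow := T.low hr ha (s := k * (s + ν) + κ) (by positivity) hk
  have h7 : ((T.D.filter fun x => T.a i * x i < s).card : ℝ) ≤
      C.card + ((T.Bad κ).card + (T.D.filter fun x => T.lam x ≤ k * (s + ν) + κ).card) := by
    exact_mod_cast (card_le_card hsub).trans ((card_union_le _ _).trans
      (Nat.add_le_add_left (card_union_le _ _) _))
  linarith

open Classical in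
/-- few elements have a small coordinate, with the constants used below -/
theorem thin' {ν s κ σ : ℝ} (hr : 1 ≤ r) (ha : ∀ i, T.a i ≤ ν) (hκ : 0 ≤ κ) (hs : 0 < s)
    (hsσ : s ≤ σ) (hνσ : ν ≤ σ) (hκσ : κ ≤ σ) (hσ : 144 * (r : ℝ) ^ 4 * σ ≤ 1)
    (hB : 8 * r * (T.Bad κ).card ≤ T.D.card) (i : Fin r) :
    ((T.D.filter fun x => T.a i * x i < s).card : ℝ) ≤ T.D.card / (2 * r) := by
  have hr1 : (1 : ℝ) ≤ r := by exact_mod_cast hr
  have hr0 : (0 : ℝ) < r := by linarith
  have hν : 0 < ν := (T.apos i).trans_le (ha i)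
  have hσ0 : 0 < σ := hs.trans_le hsσ
  have hk8 : ((8 * r - 1 : ℕ) : ℝ) = 8 * r - 1 := by
    rw [Nat.cast_sub (by omega)]
    push_cast
    ring
  have hrσ : 16 * (r : ℝ) * σ ≤ 1 / 2 := by
    have h1 : (r : ℝ) ≤ r ^ 4 := by
      calc (r : ℝ) = r ^ 1 := by ring
        _ ≤ r ^ 4 := pow_le_pow_right₀ hr1 (by norm_num)
    have h2 : (r : ℝ) * σ ≤ r ^ 4 * σ := mul_le_mul_of_nonneg_right h1 hσ0.le
    linarith
  have hS : (8 * (r : ℝ) - 1) * (s + ν) + κ ≤ 16 * r * σ - σ := by
    have h1 : (8 * (r : ℝ) - 1) * (s + ν) ≤ (8 * r - 1) * (2 * σ) :=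
      mul_le_mul_of_nonneg_left (by linarith) (by linarith)
    linarith
  have h1 := T.thin hr ha hκ hs (8 * r - 1) (by rw [hk8]; linarith) i
  rw [hk8] at h1
  have hD0 : (0 : ℝ) ≤ T.D.card := Nat.cast_nonneg _
  have e1 : (T.D.card : ℝ) / (8 * r - 1 + 1) = T.D.card / (8 * r) := by ring_nf
  have e2 : ((T.Bad κ).card : ℝ) ≤ T.D.card / (8 * r) := by
    rw [le_div_iff₀ (by positivity)]
    have : (8 * (r : ℝ) * (T.Bad κ).card) ≤ T.D.card := by exact_mod_cast hB
    linarith
  have e3 : 2 * (r : ℝ) ^ 2 * ((8 * r - 1) * (s + ν) + κ + ν) ≤ 1 / (4 * r) := by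
    have h2 : (8 * (r : ℝ) - 1) * (s + ν) + κ + ν ≤ 16 * r * σ := by linarith
    have h3 : 2 * (r : ℝ) ^ 2 * ((8 * r - 1) * (s + ν) + κ + ν) ≤ 2 * r ^ 2 * (16 * r * σ) :=
      mul_le_mul_of_nonneg_left h2 (by positivity)
    have h4 : 2 * (r : ℝ) ^ 2 * (16 * r * σ) ≤ 1 / (4 * r) := by
      rw [le_div_iff₀ (by positivity)]
      nlinarith
    linarith
  have e4 : 2 * (r : ℝ) ^ 2 * ((8 * r - 1) * (s + ν) + κ + ν) * T.D.card ≤ 1 / (4 * r) * T.D.card :=
    mul_le_mul_of_nonneg_right e3 hD0
  have e5 : (T.D.card : ℝ) / (8 * r) + T.D.card / (8 * r) + 1 / (4 * r) * T.D.card = T.D.card / (2 * r) := by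
    field_simp
    ring
  rw [e1] at h1
  linarith

end Tile

end Pool.Agent.Helper67.WI
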