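import Pool.Agent.Helper67.WI.Fine

/-!
# The fine case is impossible
-/

set_option autoImplicit false

namespace Pool.Agent.Helper67.WI

open Finset

namespace Tile

variable {r : ℕ} (T : Tile r)

open Classical in
/-- lower bound for the number of elements -/
theorem card_ge {ν κ σ : ℝ} (hr : 1 ≤ r) (ha : ∀ i, T.a i ≤ ν) (hκ : 0 ≤ κ)
    (hσ0 : 0 < σ) (hνσ : ν ≤ σ) (hκσ : κ ≤ σ) (hσ : 144 * (r : ℝ) ^ 4 * σ ≤ 1)
    (hB : 8 * r * (T.Bad κ).card ≤ T.D.card) : ∏ i, (σ / T.a i) ≤ T.D.card := by
  have hr0 : (0 : ℝ) < r := by exact_mod_cast hr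
  have hD : 0 < T.D.card := card_pos.2 ⟨_, T.one ⟨0, hr⟩⟩
  have hD' : (0 : ℝ) < T.D.card := by exact_mod_cast hD
  have hex : ∃ x ∈ T.D, ∀ i, σ ≤ T.a i * x i := by
    by_contra hcon
    push Not at hcon
    have hsub : T.D ⊆ univ.biUnion fun i => T.D.filter fun x => T.a i * x i < σ := by
      intro x hx
      obtain ⟨i, hi⟩ := hcon x hx
      exact mem_biUnion.2 ⟨i, mem_univ _, mem_filter.2 ⟨hx, hi⟩⟩
    have h1 : (T.D.card : ℝ) ≤ ∑ i : Fin r, ((T.D.filter fun x => T.a i * x i < σ).card : ℝ) := by
      exact_mod_cast (card_le_card hsub).trans card_biUnion_le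
    have h2 : ∑ i : Fin r, ((T.D.filter fun x => T.a i * x i < σ).card : ℝ) ≤
        ∑ _i : Fin r, (T.D.card : ℝ) / (2 * r) :=
      sum_le_sum fun i _ => T.thin' hr ha hκ hσ0 le_rfl hνσ hκσ hσ hB i
    rw [sum_const, card_univ, Fintype.card_fin, nsmul_eq_mul] at h2
    have h3 : (r : ℝ) * (T.D.card / (2 * r)) = T.D.card / 2 := by
      field_simp
    rw [h3] at h2
    linarith
  obtain ⟨x, hx, hxi⟩ := hex
  have hsub : Fintype.piFinset (fun i => range (x i + 1)) ⊆ T.D := by
    intro y hy
    refine T.down x hx y fun i => ?_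
    have := Fintype.mem_piFinset.1 hy i
    rw [mem_range] at this
    exact Nat.lt_succ_iff.1 this
  have h1 := card_le_card hsub
  rw [Fintype.card_piFinset] at h1
  simp only [card_range] at h1
  have h2 : (∏ i, ((x i : ℝ) + 1)) ≤ T.D.card := by exact_mod_cast h1
  refine le_trans ?_ h2
  refine prod_le_prod (fun i _ => (div_pos hσ0 (T.apos i)).le) fun i _ => ?_
  rw [div_le_iff₀ (T.apos i)]
  have := hxi i
  have := T.apos i
  nlinarith

open Classical in
theorem fine {ν κ σ : ℝ} (hr : 2 ≤ r) (ha : ∀ i, T.a i ≤ ν) (hκ : 0 < κ) (hκν : κ ≤ ν)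
    (hσ0 : 0 < σ) (hσ : 144 * (r : ℝ) ^ 4 * σ ≤ 1) (hν : 16 * ν ≤ σ ^ r)
    (hB : 8 * r * (T.Bad κ).card ≤ T.D.card) : False := by
  have hr1 : 1 ≤ r := by omega
  have hr1' : (1 : ℝ) ≤ r := by exact_mod_cast hr1
  have hr0 : (0 : ℝ) < r := by linarith
  have hσ1 : σ ≤ 1 := by
    have h1 : (1 : ℝ) ≤ r ^ 4 := one_le_pow₀ hr1'
    nlinarith
  have hσr : σ ^ r ≤ σ := by
    calc σ ^ r ≤ σ ^ 1 := pow_le_pow_of_le_one hσ0.le hσ1 hr1
      _ = σ := pow_one σ
  have hν0 : 0 < ν := hκ.trans_le hκν
  have hνσ : ν ≤ σ := by linarith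
  have hκσ : κ ≤ σ := by linarith
  have hD : 0 < T.D.card := card_pos.2 ⟨_, T.one ⟨0, by omega⟩⟩
  have hD' : (0 : ℝ) < T.D.card := by exact_mod_cast hD
  set o : Fin r := ⟨0, by omega⟩ with ho
  -- the steps
  have hs : ∀ i : Fin r, ∃ q : ℕ, 1 ≤ q ∧ κ ≤ q * T.a i ∧ (q - 1 : ℝ) * T.a i < κ := fun i =>
    exists_ge (T.a i) κ (T.apos i) hκ
  choose s hs1 hs2 hs3 using hs
  choose nfv hnf1 hnf2 using T.nf
  set N : ℕ := ⌊1 / T.a o⌋₊ + 1 with hN
  have hxN : ∀ x ∈ T.D, x o < N := by
    intro x hx
    have h1 : T.a o * x o ≤ 1 := by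
      have h2 := T.wle x hx
      have h3 : T.a o * x o ≤ ∑ i, T.a i * (x i : ℝ) :=
        single_le_sum (f := fun i => T.a i * (x i : ℝ))
          (fun i _ => mul_nonneg (T.apos i).le (Nat.cast_nonneg _)) (mem_univ o)
      linarith
    have h2 : (x o : ℝ) ≤ 1 / T.a o := by
      rw [le_div_iff₀ (T.apos o)]
      linarith
    have := Nat.le_floor h2
    omega
  -- the three parts
  set A1 := univ.biUnion fun i => T.D.filter fun x => T.a i * x i < κ with hA1
  set A2 := (univ : Finset (Fin r)).biUnion fun i => (T.D.filter fun x => s i ≤ x i ∧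
    x - Pi.single i (s i) ∈ T.Bad κ) with hA2
  set A3 := T.D.filter fun x => ∀ i, i ≠ o → s i ≤ x i ∧
    x - Pi.single i (s i) + Pi.single o (T.len o x + 1) ∈ T.D with hA3
  have hcover : T.D ⊆ A1 ∪ (A2 ∪ A3) := by
    intro x hx
    rw [mem_union, mem_union]
    by_contra hcon
    push Not at hcon
    obtain ⟨h1, h2, h3⟩ := hcon
    apply h3
    rw [hA3, mem_filter]
    refine ⟨hx, fun i hi => ?_⟩
    have h4 : κ ≤ T.a i * x i := by
      by_contra h
      push Not at h
      exact h1 (mem_biUnion.2 ⟨i, mem_univ _, mem_filter.2 ⟨hx, h⟩⟩)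
    have h5 : s i ≤ x i := by
      by_contra h
      push Not at h
      have h6 : (x i : ℝ) ≤ s i - 1 := by
        have : ((x i + 1 : ℕ) : ℝ) ≤ s i := by exact_mod_cast h
        push_cast at this
        linarith
      have h7 := mul_le_mul_of_nonneg_left h6 (T.apos i).le
      have h8 := hs3 i
      nlinarith
    refine ⟨h5, ?_⟩
    have hy : x - Pi.single i (s i) ∈ T.D := T.sub_mem hx _
    have hyB : x - Pi.single i (s i) ∉ T.Bad κ := by
      intro h
      exact h2 (mem_biUnion.2 ⟨i, mem_univ _, mem_filter.2 ⟨hx, h5, h⟩⟩)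
    rw [T.mem_iff hy]
    by_contra hlt
    push Not at hlt
    have e1 := T.not_Bad hy hyB o
    have e2 := T.lam_eq o (x - Pi.single i (s i))
    have e3 := T.lam_sub_single h5
    have e4 := T.lam_eq o x
    have e5 := T.tt_nonneg hx o
    have e6 : (T.len o (x - Pi.single i (s i)) : ℝ) ≤ T.len o x := by
      exact_mod_cast (by omega : T.len o (x - Pi.single i (s i)) ≤ T.len o x)
    have e7 := mul_le_mul_of_nonneg_left e6 (T.apos o).le
    have e8 := hs2 i
    nlinarith
  -- sizes
  have hc1 : (A1.card : ℝ) ≤ T.D.card / 2 := by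
    have h1 : (A1.card : ℝ) ≤ ∑ i : Fin r, ((T.D.filter fun x => T.a i * x i < κ).card : ℝ) := by
      exact_mod_cast card_biUnion_le
    have h2 : ∑ i : Fin r, ((T.D.filter fun x => T.a i * x i < κ).card : ℝ) ≤
        ∑ _i : Fin r, (T.D.card : ℝ) / (2 * r) :=
      sum_le_sum fun i _ => T.thin' hr1 ha hκ.le hκ hκσ hνσ hκσ hσ hB i
    rw [sum_const, card_univ, Fintype.card_fin, nsmul_eq_mul] at h2
    have h3 : (r : ℝ) * (T.D.card / (2 * r)) = T.D.card / 2 := by
      field_simp
    rw [h3] at h2
    linarith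
  have hc2 : (A2.card : ℝ) ≤ T.D.card / 8 := by
    have h1 : A2.card ≤ ∑ _i : Fin r, (T.Bad κ).card := by
      refine card_biUnion_le.trans (sum_le_sum fun i _ => ?_)
      refine card_le_card_of_injOn (fun x => x - Pi.single i (s i)) ?_ ?_
      · intro x hx
        exact mem_coe.2 (mem_filter.1 (mem_coe.1 hx)).2.2
      · intro x hx y hy h
        have hx' := mem_filter.1 (mem_coe.1 hx)
        have hy' := mem_filter.1 (mem_coe.1 hy)
        have h1 : x - Pi.single i (s i) = y - Pi.single i (s i) := h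
        rw [← sub_add hx'.2.1, ← sub_add hy'.2.1, h1]
    rw [sum_const, card_univ, Fintype.card_fin, smul_eq_mul] at h1
    have h2 : 8 * A2.card ≤ T.D.card := by
      calc 8 * A2.card ≤ 8 * (r * (T.Bad κ).card) := Nat.mul_le_mul_left 8 h1
        _ = 8 * r * (T.Bad κ).card := by ring
        _ ≤ _ := hB
    have h3 : (8 : ℝ) * A2.card ≤ T.D.card := by exact_mod_cast h2
    linarith
  set s' : Fin r → ℕ := fun i => if i = o then 1 else s i with hs'
  have hc3 : A3.card ≤ (∏ i, s' i) * N := by
    have h1 : A3.card ≤ ((Fintype.piFinset fun i => range (s' i)) ×ˢ range N).card := by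
      refine card_le_card_of_injOn (fun x => (nfv (x + Pi.single o (T.len o x + 1)), x o)) ?_ ?_
      · intro x hx
        have hx' := mem_filter.1 (mem_coe.1 hx)
        rw [mem_coe, mem_product, Fintype.mem_piFinset]
        refine ⟨fun i => ?_, mem_range.2 (hxN x hx'.1)⟩
        set c := x + Pi.single o (T.len o x + 1) with hc
        have hcD : c ∉ T.D := T.len_out o x
        have hvD := hnf1 c
        have hvψ := hnf2 c
        rw [mem_range]
        by_contra hlt0
        push Not at hlt0
        have hlt : s' i ≤ nfv c i := hlt0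
        -- `v - s' i e_i` and `c - s' i e_i` are congruent
        have hci : c - Pi.single i (s' i) ∈ T.D ∧ s' i ≤ c i := by
          by_cases hi : i = o
          · subst hi
            have h2 : s' o = 1 := by simp [hs']
            rw [h2]
            have h3 : c - Pi.single o 1 = x + Pi.single o (T.len o x) := by
              rw [hc]
              funext j
              by_cases hj : j = o
              · subst hj
                simp only [Pi.sub_apply, Pi.add_apply, Pi.single_eq_same]
                omega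
              · simp [Pi.single_eq_of_ne hj]
            rw [h3]
            refine ⟨T.len_mem hx'.1 o, ?_⟩
            rw [hc]
            simp only [Pi.add_apply, Pi.single_eq_same]
            omega
          · have h2 : s' i = s i := by simp [hs', hi]
            rw [h2]
            obtain ⟨h3, h4⟩ := hx'.2 i hi
            have h5 : c - Pi.single i (s i) = x - Pi.single i (s i) + Pi.single o (T.len o x + 1) := by
              rw [hc]
              funext j
              by_cases hj : j = i
              · subst hj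
                simp [Pi.single_eq_of_ne hi]
              · simp [Pi.single_eq_of_ne hj]
            rw [h5]
            refine ⟨h4, ?_⟩
            rw [hc, Pi.add_apply]
            omega
        have h6 : T.ψ (nfv c - Pi.single i (s' i)) = T.ψ (c - Pi.single i (s' i)) := by
          have e1 : T.ψ (nfv c - Pi.single i (s' i)) + T.ψ (Pi.single i (s' i)) = T.ψ (nfv c) := by
            rw [← map_add, sub_add hlt]
          have e2 : T.ψ (c - Pi.single i (s' i)) + T.ψ (Pi.single i (s' i)) = T.ψ c := by
            rw [← map_add, sub_add hci.2]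
          have e3 : T.ψ (nfv c - Pi.single i (s' i)) + T.ψ (Pi.single i (s' i)) =
              T.ψ (c - Pi.single i (s' i)) + T.ψ (Pi.single i (s' i)) := by rw [e1, e2, hvψ]
          exact add_right_cancel e3
        have h7 := T.inj _ (T.sub_mem hvD _) _ hci.1 h6
        have h8 : nfv c = c := by
          have e1 := sub_add hlt
          have e2 := sub_add hci.2
          rw [h7] at e1
          exact e1.symm.trans e2
        exact hcD (h8 ▸ hvD)
      · intro x hx y hy h
        have hx' := mem_filter.1 (mem_coe.1 hx)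
        have hy' := mem_filter.1 (mem_coe.1 hy)
        simp only [Prod.mk.injEq] at h
        obtain ⟨h1, h2⟩ := h
        have h3 : T.ψ (x + Pi.single o (T.len o x + 1)) = T.ψ (y + Pi.single o (T.len o y + 1)) := by
          have e1 := hnf2 (x + Pi.single o (T.len o x + 1))
          have e2 := hnf2 (y + Pi.single o (T.len o y + 1))
          rw [h1] at e1
          exact e1.symm.trans e2
        have h4 : T.ψ (x + Pi.single o (T.len o x)) = T.ψ (y + Pi.single o (T.len o y)) := by
          have e1 : ∀ z : Fin r → ℕ, ∀ k : ℕ, T.ψ (z + Pi.single o (k + 1)) =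
              T.ψ (z + Pi.single o k) + T.ψ (Pi.single o 1) := by
            intro z k
            rw [Pi.single_add, ← add_assoc, map_add]
          rw [e1, e1] at h3
          exact add_right_cancel h3
        have h5 := T.inj _ (T.len_mem hx'.1 o) _ (T.len_mem hy'.1 o) h4
        have h6 := congrFun h5 o
        simp only [Pi.add_apply, Pi.single_eq_same] at h6
        have h7 : T.len o x = T.len o y := by omega
        rw [h7] at h5
        exact add_right_cancel h5
    rw [card_product, Fintype.card_piFinset, card_range] at h1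
    simpa using h1
  -- real estimate of the third part
  have hao := T.apos o
  have hao1 : T.a o ≤ 1 := by linarith [ha o]
  have hc3' : (A3.card : ℝ) ≤ (∏ i, (σ / T.a i)) / 4 := by
    have h1 : (A3.card : ℝ) ≤ (∏ i, (s' i : ℝ)) * N := by exact_mod_cast hc3
    have h2 : (N : ℝ) ≤ 2 / T.a o := by
      have h3 : ((⌊1 / T.a o⌋₊ : ℕ) : ℝ) ≤ 1 / T.a o := Nat.floor_le (by positivity)
      have h4 : 1 ≤ 1 / T.a o := by rw [le_div_iff₀ hao]; linarith
      rw [hN]
      push_cast
      have h5 : 2 / T.a o = 1 / T.a o + 1 / T.a o := by ring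
      linarith
    have hsp : ∀ i, i ≠ o → (s' i : ℝ) ≤ 2 * ν / T.a i := by
      intro i hi
      have h3 : s' i = s i := by simp [hs', hi]
      rw [h3, le_div_iff₀ (T.apos i)]
      have h4 := hs3 i
      have h5 := ha i
      nlinarith
    have h6 : ∏ i, (s' i : ℝ) = ∏ i ∈ univ.erase o, (s' i : ℝ) := by
      rw [← mul_prod_erase univ (fun i => (s' i : ℝ)) (mem_univ o)]
      simp [hs']
    have h7 : ∏ i, (s' i : ℝ) ≤ ∏ i ∈ univ.erase o, (2 * ν / T.a i) := by
      rw [h6]
      refine prod_le_prod (fun i _ => Nat.cast_nonneg _) fun i hi => hsp i (ne_of_mem_erase hi)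
    have h8 : ∏ i ∈ univ.erase o, (2 * ν / T.a i) =
        (2 * ν / σ) ^ (r - 1) * ∏ i ∈ univ.erase o, (σ / T.a i) := by
      have h9 : ∀ i ∈ univ.erase o, 2 * ν / T.a i = (2 * ν / σ) * (σ / T.a i) := by
        intro i _
        have := T.apos i
        field_simp
      rw [prod_congr rfl h9, prod_mul_distrib, prod_const, card_erase_of_mem (mem_univ o), card_univ,
        Fintype.card_fin]
    have h10 : (2 * ν / σ) ^ (r - 1) * (2 / σ) ≤ 1 / 4 := by
      have h11 : (2 * ν / σ) ^ (r - 1) * (2 / σ) * σ ^ r = (2 * ν) ^ (r - 1) * 2 := by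
        have h12 : σ ^ r = σ ^ (r - 1) * σ := by
          rw [← pow_succ]
          congr 1
          omega
        rw [h12, div_pow]
        field_simp
      have h13 : (2 * ν) ^ (r - 1) ≤ 2 * ν := by
        calc (2 * ν) ^ (r - 1) ≤ (2 * ν) ^ 1 :=
              pow_le_pow_of_le_one (by positivity) (by linarith) (by omega)
          _ = 2 * ν := pow_one _
      have h14 : 0 < σ ^ r := by positivity
      by_contra hcon
      push Not at hcon
      have h15 := mul_lt_mul_of_pos_right hcon h14
      rw [h11] at h15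
      linarith
    have hP : 0 ≤ ∏ i ∈ univ.erase o, (σ / T.a i) :=
      prod_nonneg fun i _ => (div_pos hσ0 (T.apos i)).le
    have hPo : ∏ i, (σ / T.a i) = σ / T.a o * ∏ i ∈ univ.erase o, (σ / T.a i) :=
      (mul_prod_erase univ (fun i => σ / T.a i) (mem_univ o)).symm
    have h16 : 0 ≤ (2 * ν / σ) ^ (r - 1) := by positivity
    calc (A3.card : ℝ) ≤ (∏ i, (s' i : ℝ)) * N := h1
      _ ≤ (∏ i ∈ univ.erase o, (2 * ν / T.a i)) * (2 / T.a o) :=
          mul_le_mul h7 h2 (Nat.cast_nonneg _) (prod_nonneg fun i _ => by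
            have := T.apos i
            positivity)
      _ = (2 * ν / σ) ^ (r - 1) * (2 / σ) * (σ / T.a o * ∏ i ∈ univ.erase o, (σ / T.a i)) := by
          rw [h8]
          field_simp
      _ ≤ 1 / 4 * (σ / T.a o * ∏ i ∈ univ.erase o, (σ / T.a i)) :=
          mul_le_mul_of_nonneg_right h10 (by positivity)
      _ = (∏ i, (σ / T.a i)) / 4 := by rw [hPo]; ring
  have hge := T.card_ge hr1 ha hκ.le hσ0 hνσ hκσ hσ hB
  have hfin : (T.D.card : ℝ) ≤ A1.card + (A2.card + A3.card) := by
    exact_mod_cast (card_le_card hcover).trans ((card_union_le _ _).trans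
      (Nat.add_le_add_left (card_union_le _ _) _))
  linarith

end Tile

end Pool.Agent.Helper67.WI
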