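import Pool.Agent.Helper67.WI.Tile

/-!
# If most losses are small then all weights are nearly equal
-/

set_option autoImplicit false

namespace Pool.Agent.Helper67.WI

open Finset

/-- least multiple of `b` which is `≥ c` -/
theorem exists_ge (b c : ℝ) (hb : 0 < b) (hc : 0 < c) :
    ∃ p : ℕ, 1 ≤ p ∧ c ≤ p * b ∧ (p - 1 : ℝ) * b < c := by
  classical
  have hex : ∃ p : ℕ, c ≤ p * b := by
    obtain ⟨p, hp⟩ := exists_nat_gt (c / b)
    exact ⟨p, by rw [div_lt_iff₀ hb] at hp; exact hp.le⟩
  refine ⟨Nat.find hex, ?_, Nat.find_spec hex, ?_⟩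
  · by_contra h
    have h0 : Nat.find hex = 0 := by omega
    have := Nat.find_spec hex
    rw [h0] at this
    simp at this
    linarith
  · by_contra h
    push Not at h
    have h1 : 1 ≤ Nat.find hex := by
      by_contra h'
      have h0 : Nat.find hex = 0 := by omega
      have := Nat.find_spec hex
      rw [h0] at this
      simp at this
      linarith
    have h2 : c ≤ ((Nat.find hex - 1 : ℕ) : ℝ) * b := by
      rw [Nat.cast_sub h1]
      simpa using h
    have := Nat.find_min hex (m := Nat.find hex - 1) (by omega)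
    exact this h2

/-- least multiple of `b` which is `> c` -/
theorem exists_gt' (b c : ℝ) (hb : 0 < b) (hc : 0 ≤ c) :
    ∃ p : ℕ, 1 ≤ p ∧ c < p * b ∧ (p - 1 : ℝ) * b ≤ c := by
  classical
  have hex : ∃ p : ℕ, c < p * b := by
    obtain ⟨p, hp⟩ := exists_nat_gt (c / b)
    exact ⟨p, by rw [div_lt_iff₀ hb] at hp; exact hp⟩
  have h1 : 1 ≤ Nat.find hex := by
    by_contra h
    have h0 : Nat.find hex = 0 := by omega
    have := Nat.find_spec hex
    rw [h0] at this
    simp at this
    linarith
  refine ⟨Nat.find hex, h1, Nat.find_spec hex, ?_⟩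
  by_contra h
  push Not at h
  have h2 : c < ((Nat.find hex - 1 : ℕ) : ℝ) * b := by
    rw [Nat.cast_sub h1]
    simpa using h
  have := Nat.find_min hex (m := Nat.find hex - 1) (by omega)
  exact this h2

namespace Tile

variable {r : ℕ} (T : Tile r)

open Classical in
/-- elements with a large loss -/
noncomputable def Bad (κ : ℝ) : Finset (Fin r → ℕ) := T.D.filter (fun x => ∃ i, κ ≤ T.tt i x)

theorem mem_Bad (κ : ℝ) (x : Fin r → ℕ) : x ∈ T.Bad κ ↔ x ∈ T.D ∧ ∃ i, κ ≤ T.tt i x := by
  classical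
  unfold Bad
  rw [mem_filter]

theorem not_Bad {κ : ℝ} {x : Fin r → ℕ} (hx : x ∈ T.D) (h : x ∉ T.Bad κ) (i : Fin r) : T.tt i x < κ := by
  by_contra h'
  push Not at h'
  exact h ((T.mem_Bad κ x).2 ⟨hx, i, h'⟩)

/-- the key step: a shift by a non multiple of `a i` makes the loss in direction `i` large -/
theorem shift_Bad {κ : ℝ} {i j : Fin r} {p : ℕ} (h1 : κ < p * T.a j) (h2 : p * T.a j ≤ T.a i - κ)
    {x : Fin r → ℕ} (hx : x ∈ T.D) (hxB : x ∉ T.Bad κ) (hxp : x + Pi.single j p ∈ T.D) :
    x + Pi.single j p ∈ T.Bad κ := by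
  by_contra hB
  have e1 := T.lam_eq i x
  have e2 := T.lam_eq i (x + Pi.single j p)
  have e3 := T.lam_add_single x j p
  have t1 := T.not_Bad hx hxB i
  have t2 := T.not_Bad hxp hB i
  have t3 := T.tt_nonneg hx i
  have t4 := T.tt_nonneg hxp i
  have hai := T.apos i
  -- `(len i x - len i y) * a i = p * a j + t' - t`
  have e4 : T.a i * ((T.len i x : ℝ) - T.len i (x + Pi.single j p)) =
      p * T.a j + T.tt i (x + Pi.single j p) - T.tt i x := by
    linarith
  have h3 : 0 < T.a i * ((T.len i x : ℝ) - T.len i (x + Pi.single j p)) := by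
    rw [e4]; linarith
  have h4 : T.a i * ((T.len i x : ℝ) - T.len i (x + Pi.single j p)) < T.a i := by
    rw [e4]; linarith
  have h5 : 0 < (T.len i x : ℝ) - T.len i (x + Pi.single j p) := by
    by_contra h
    push Not at h
    nlinarith
  have h6 : (T.len i x : ℝ) - T.len i (x + Pi.single j p) < 1 := by
    by_contra h
    push Not at h
    nlinarith
  have h7 : T.len i (x + Pi.single j p) < T.len i x := by
    have : (T.len i (x + Pi.single j p) : ℝ) < T.len i x := by linarith
    exact_mod_cast this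
  have h8 : (T.len i (x + Pi.single j p) : ℝ) + 1 ≤ T.len i x := by exact_mod_cast h7
  linarith

open Classical in
/-- If `a j + 2 κ ≤ a i` then many elements have a large loss. -/
theorem near {κ : ℝ} (hκ : 0 < κ) (hκ1 : 2 * κ * (r + 1) ≤ 1) {i j : Fin r} (hij : T.a j + 2 * κ ≤ T.a i)
    (hB : 2 * (r + 1) * (T.Bad κ).card < T.D.card) : False := by
  obtain ⟨p, hp1, hp2, hp3⟩ := exists_gt' (T.a j) κ (T.apos j) hκ.le
  have hp4 : p * T.a j ≤ T.a i - κ := by
    have : (p : ℝ) * T.a j = (p - 1) * T.a j + T.a j := by ring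
    linarith
  -- the elements of large defect
  set A : Finset (Fin r → ℕ) := T.D.filter (fun x => 2 * κ ≤ T.lam x) with hA
  have hA1 : A ⊆ T.Bad κ ∪ (T.D.filter fun x => x ∉ T.Bad κ ∧ x + Pi.single j p ∈ T.D) := by
    intro x hx
    rw [hA, mem_filter] at hx
    rw [mem_union, mem_filter]
    by_cases hxB : x ∈ T.Bad κ
    · exact Or.inl hxB
    · refine Or.inr ⟨hx.1, hxB, ?_⟩
      rw [T.mem_iff hx.1]
      by_contra hlt
      push Not at hlt
      have h1 := T.not_Bad hx.1 hxB j
      have h2 := T.lam_eq j x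
      have h3 : (T.len j x : ℝ) ≤ p - 1 := by
        have : T.len j x + 1 ≤ p := hlt
        have : ((T.len j x + 1 : ℕ) : ℝ) ≤ p := by exact_mod_cast this
        push_cast at this
        linarith
      have h4 : T.a j * T.len j x ≤ κ := by
        have := mul_le_mul_of_nonneg_right h3 (T.apos j).le
        nlinarith
      linarith [hx.2]
  have hA2 : (T.D.filter fun x => x ∉ T.Bad κ ∧ x + Pi.single j p ∈ T.D).card ≤ (T.Bad κ).card := by
    refine card_le_card_of_injOn (fun x => x + Pi.single j p) ?_ ?_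
    · intro x hx
      have hx' := mem_filter.1 (mem_coe.1 hx)
      exact mem_coe.2 (T.shift_Bad hp2 hp4 hx'.1 hx'.2.1 hx'.2.2)
    · intro x _ y _ h
      exact add_right_cancel h
  have hA3 : A.card ≤ 2 * (T.Bad κ).card := by
    calc A.card ≤ _ := card_le_card hA1
      _ ≤ _ := card_union_le _ _
      _ ≤ (T.Bad κ).card + (T.Bad κ).card := Nat.add_le_add_left hA2 _
      _ = 2 * (T.Bad κ).card := by ring
  -- steps for `2 κ`
  have hq : ∀ i' : Fin r, ∃ q : ℕ, 1 ≤ q ∧ 2 * κ ≤ q * T.a i' ∧ (q - 1 : ℝ) * T.a i' < 2 * κ := fun i' =>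
    exists_ge (T.a i') (2 * κ) (T.apos i') (by linarith)
  choose q hq1 hq2 hq3 using hq
  have hC : ∀ i' : Fin r, (T.D.filter fun x => x ∉ A ∧ q i' ≤ x i').card ≤ A.card := by
    intro i'
    refine card_le_card_of_injOn (fun x => x - Pi.single i' (q i')) ?_ ?_
    · intro x hx
      have hx' := mem_filter.1 (mem_coe.1 hx)
      rw [mem_coe, hA, mem_filter]
      refine ⟨T.sub_mem hx'.1 _, ?_⟩
      rw [T.lam_sub_single hx'.2.2]
      have h1 := T.lam_nonneg hx'.1
      have h2 := hq2 i'
      linarith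
    · intro x hx y hy h
      have hx' := mem_filter.1 (mem_coe.1 hx)
      have hy' := mem_filter.1 (mem_coe.1 hy)
      have h1 : x - Pi.single i' (q i') = y - Pi.single i' (q i') := h
      rw [← sub_add hx'.2.2, ← sub_add hy'.2.2, h1]
  -- the remaining elements
  have hsub : T.D ⊆ A ∪ univ.biUnion fun i' => T.D.filter fun x => x ∉ A ∧ q i' ≤ x i' := by
    intro x hx
    rw [mem_union, mem_biUnion]
    by_contra hcon
    push Not at hcon
    obtain ⟨hxA, hcon⟩ := hcon
    have h1 : ∀ i', x i' < q i' := by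
      intro i'
      by_contra hlt
      push Not at hlt
      exact hcon i' (mem_univ _) (mem_filter.2 ⟨hx, hxA, hlt⟩)
    have h2 : T.lam x < 2 * κ := by
      by_contra h
      push Not at h
      exact hxA (by rw [hA, mem_filter]; exact ⟨hx, h⟩)
    have h3 : ∀ i', T.a i' * x i' ≤ 2 * κ := by
      intro i'
      have h4 : (x i' : ℝ) ≤ q i' - 1 := by
        have : x i' + 1 ≤ q i' := h1 i'
        have : ((x i' + 1 : ℕ) : ℝ) ≤ q i' := by exact_mod_cast this
        push_cast at this
        linarith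
      have h5 := mul_le_mul_of_nonneg_left h4 (T.apos i').le
      have h6 := hq3 i'
      nlinarith
    have h4 : T.wt x ≤ r * (2 * κ) := by
      unfold wt
      calc ∑ i', T.a i' * (x i' : ℝ) ≤ ∑ _i' : Fin r, 2 * κ := sum_le_sum fun i' _ => h3 i'
        _ = r * (2 * κ) := by simp
    have h5 : T.lam x = 1 - T.wt x := rfl
    nlinarith
  have hcard : T.D.card ≤ (r + 1) * A.card := by
    calc T.D.card ≤ _ := card_le_card hsub
      _ ≤ _ := card_union_le _ _
      _ ≤ A.card + ∑ i' : Fin r, (T.D.filter fun x => x ∉ A ∧ q i' ≤ x i').card :=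
        Nat.add_le_add_left card_biUnion_le _
      _ ≤ A.card + ∑ _i' : Fin r, A.card := Nat.add_le_add_left (sum_le_sum fun i' _ => hC i') _
      _ = (r + 1) * A.card := by simp; ring
  have := Nat.mul_le_mul_left (r + 1) hA3
  have h9 : (r + 1) * (2 * (T.Bad κ).card) = 2 * (r + 1) * (T.Bad κ).card := by ring
  omega

end Tile

end Pool.Agent.Helper67.WI
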