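import Pool.Agent.Helper67.WI.TileMain

/-!
# Numerical semigroups: the Apery set as a tile
-/

set_option autoImplicit false

namespace Pool.Agent.Helper67.WI

open Finset

/-- the minimal generators -/
def gens (S : AddSubmonoid ℕ) : Set ℕ :=
  {g | g ∈ S ∧ g ≠ 0 ∧ ∀ x ∈ S, ∀ y ∈ S, x ≠ 0 → y ≠ 0 → x + y ≠ g}

/-- the embedding dimension -/
noncomputable def embDim (S : AddSubmonoid ℕ) : ℕ := (gens S).ncard

/-- the conductor -/
noncomputable def cond (S : AddSubmonoid ℕ) : ℕ := sInf {c | ∀ n, c ≤ n → n ∈ S}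

/-- the multiplicity -/
noncomputable def mult (S : AddSubmonoid ℕ) : ℕ := sInf {s | s ∈ S ∧ s ≠ 0}

/-- the number of elements below the conductor -/
noncomputable def left (S : AddSubmonoid ℕ) : ℕ := {s | s ∈ S ∧ s < cond S}.ncard

section basics

variable {S : AddSubmonoid ℕ}

theorem cond_nonempty (hS : {n | n ∉ S}.Finite) : {c | ∀ n, c ≤ n → n ∈ S}.Nonempty := by
  obtain ⟨b, hb⟩ := hS.bddAbove
  refine ⟨b + 1, fun n hn => ?_⟩
  by_contra h
  have := hb (show n ∈ {n | n ∉ S} from h)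
  omega

theorem mem_of_cond_le (hS : {n | n ∉ S}.Finite) {n : ℕ} (h : cond S ≤ n) : n ∈ S :=
  Nat.sInf_mem (cond_nonempty hS) n h

theorem cond_pred_notMem (hc : 1 ≤ cond S) : cond S - 1 ∉ S := by
  intro h
  by_cases hne : {c | ∀ n, c ≤ n → n ∈ S}.Nonempty
  · have hspec := Nat.sInf_mem hne
    have : cond S ≤ cond S - 1 := by
      refine Nat.sInf_le ?_
      intro n hn
      rcases Nat.lt_or_ge n (cond S) with h1 | h1
      · have : n = cond S - 1 := by omega
        rw [this]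
        exact h
      · exact hspec n h1
    omega
  · rw [Set.not_nonempty_iff_eq_empty] at hne
    unfold cond at hc
    rw [hne, Nat.sInf_empty] at hc
    omega

theorem mult_nonempty (hS : {n | n ∉ S}.Finite) : {s | s ∈ S ∧ s ≠ 0}.Nonempty := by
  refine ⟨cond S + 1, mem_of_cond_le hS (by omega), by omega⟩

theorem mult_mem (hS : {n | n ∉ S}.Finite) : mult S ∈ S := (Nat.sInf_mem (mult_nonempty hS)).1

theorem mult_pos (hS : {n | n ∉ S}.Finite) : 0 < mult S :=
  Nat.pos_of_ne_zero (Nat.sInf_mem (mult_nonempty hS)).2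

theorem mult_le {s : ℕ} (hs : s ∈ S) (h0 : s ≠ 0) : mult S ≤ s := Nat.sInf_le ⟨hs, h0⟩

theorem mul_mult_mem (hS : {n | n ∉ S}.Finite) (k : ℕ) : k * mult S ∈ S := by
  have := S.nsmul_mem (mult_mem hS) k
  simpa using this

/-- the Apery set -/
def Ap (S : AddSubmonoid ℕ) : Set ℕ := {w | w ∈ S ∧ ∀ s ∈ S, s + mult S ≠ w}

theorem Ap_le (hS : {n | n ∉ S}.Finite) (hc : 1 ≤ cond S) {w : ℕ} (hw : w ∈ Ap S) :
    w ≤ cond S + mult S - 1 := by
  by_contra h
  push Not at h
  refine hw.2 (w - mult S) (mem_of_cond_le hS (by omega)) (by omega)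

theorem exists_Ap (hS : {n | n ∉ S}.Finite) (n : ℕ) : ∃ w ∈ Ap S, w ≡ n [MOD mult S] := by
  classical
  have hm := mult_pos hS
  have hex : ∃ w, w ∈ S ∧ w ≡ n [MOD mult S] := by
    refine ⟨n + cond S * mult S, mem_of_cond_le hS ?_, ?_⟩
    · nlinarith
    · unfold Nat.ModEq
      simp
  refine ⟨Nat.find hex, ⟨(Nat.find_spec hex).1, ?_⟩, (Nat.find_spec hex).2⟩
  intro s hs h
  have h1 : s < Nat.find hex := by omega
  refine Nat.find_min hex h1 ⟨hs, ?_⟩
  have h2 := (Nat.find_spec hex).2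
  rw [← h] at h2
  have h3 : s + mult S ≡ s [MOD mult S] := by
    unfold Nat.ModEq
    simp
  exact h3.symm.trans h2

theorem Ap_le_of_modEq (hS : {n | n ∉ S}.Finite) {w s : ℕ} (hw : w ∈ Ap S) (hs : s ∈ S)
    (h : w ≡ s [MOD mult S]) : w ≤ s := by
  by_contra hlt
  push Not at hlt
  have hm := mult_pos hS
  obtain ⟨k, hk⟩ := (Nat.modEq_iff_dvd' hlt.le).1 h.symm
  have hk1 : 1 ≤ k := by
    rcases Nat.eq_zero_or_pos k with h0 | h0
    · subst h0
      omega
    · exact h0
  obtain ⟨j, rfl⟩ : ∃ j, k = j + 1 := ⟨k - 1, by omega⟩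
  refine hw.2 (s + j * mult S) (S.add_mem hs (mul_mult_mem hS j)) ?_
  have : mult S * (j + 1) = j * mult S + mult S := by ring
  omega

theorem Ap_inj (hS : {n | n ∉ S}.Finite) {w w' : ℕ} (hw : w ∈ Ap S) (hw' : w' ∈ Ap S)
    (h : w ≡ w' [MOD mult S]) : w = w' :=
  le_antisymm (Ap_le_of_modEq hS hw hw'.1 h) (Ap_le_of_modEq hS hw' hw.1 h.symm)

theorem gens_Ap {g : ℕ} (hg : g ∈ gens S) (hgm : g ≠ mult S) (hS : {n | n ∉ S}.Finite) :
    g ∈ Ap S := by
  refine ⟨hg.1, fun s hs h => ?_⟩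
  have hm := mult_pos hS
  refine hg.2.2 s hs (mult S) (mult_mem hS) ?_ (by omega) h
  rintro rfl
  exact hgm (by omega)

theorem mult_mem_gens (hS : {n | n ∉ S}.Finite) : mult S ∈ gens S := by
  have hm := mult_pos hS
  refine ⟨mult_mem hS, by omega, fun x hx y hy hx0 hy0 h => ?_⟩
  have := mult_le hx hx0
  have := mult_le hy hy0
  omega

theorem gens_finite (hS : {n | n ∉ S}.Finite) (hc : 1 ≤ cond S) : (gens S).Finite := by
  refine Set.Finite.subset (Set.finite_Iic (cond S + mult S)) fun g hg => ?_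
  by_cases h : g = mult S
  · rw [Set.mem_Iic]
    omega
  · have := Ap_le hS hc (gens_Ap hg h hS)
    rw [Set.mem_Iic]
    omega

/-- an enumeration of the generators other than the multiplicity -/
theorem exists_enum (hS : {n | n ∉ S}.Finite) (hc : 1 ≤ cond S) :
    ∃ r, embDim S = r + 1 ∧ ∃ a : Fin r → ℕ, Function.Injective a ∧
      ∀ g, (∃ i, a i = g) ↔ (g ∈ gens S ∧ g ≠ mult S) := by
  classical
  have hfin : (gens S \ {mult S}).Finite := (gens_finite hS hc).subset Set.diff_subset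
  refine ⟨hfin.toFinset.card, ?_, ?_⟩
  · unfold embDim
    rw [← Set.ncard_eq_toFinset_card (gens S \ {mult S}) hfin]
    exact (Set.ncard_diff_singleton_add_one (mult_mem_gens hS) (gens_finite hS hc)).symm
  · refine ⟨fun i => (hfin.toFinset.equivFin.symm i : ℕ), ?_, ?_⟩
    · intro i j h
      exact hfin.toFinset.equivFin.symm.injective (Subtype.ext h)
    · intro g
      constructor
      · rintro ⟨i, rfl⟩
        have := (hfin.toFinset.equivFin.symm i).2
        rw [Set.Finite.mem_toFinset] at this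
        exact ⟨this.1, this.2⟩
      · rintro ⟨h1, h2⟩
        have h3 : g ∈ hfin.toFinset := by
          rw [Set.Finite.mem_toFinset]
          exact ⟨h1, h2⟩
        exact ⟨hfin.toFinset.equivFin ⟨g, h3⟩, by simp⟩

end basics

end Pool.Agent.Helper67.WI
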