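import Pool.Agent.Helper67.WI.Sgp

/-!
# The tile of a numerical semigroup
-/

set_option autoImplicit false

namespace Pool.Agent.Helper67.WI

open Finset

/-- the value of a factorization -/
def wN {r : ℕ} (a : Fin r → ℕ) (x : Fin r → ℕ) : ℕ := ∑ i, a i * x i

theorem wN_add {r : ℕ} (a x y : Fin r → ℕ) : wN a (x + y) = wN a x + wN a y := by
  unfold wN
  rw [← sum_add_distrib]
  refine sum_congr rfl fun i _ => ?_
  rw [Pi.add_apply]
  ring

theorem wN_zero {r : ℕ} (a : Fin r → ℕ) : wN a 0 = 0 := by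
  unfold wN
  simp

theorem wN_single {r : ℕ} (a : Fin r → ℕ) (i : Fin r) (k : ℕ) : wN a (Pi.single i k) = a i * k := by
  unfold wN
  rw [sum_eq_single i]
  · simp
  · intro j _ hj
    simp [Pi.single_eq_of_ne hj]
  · intro h
    exact absurd (mem_univ i) h

/-- the homomorphism to the residues modulo the multiplicity -/
def psi {r : ℕ} (a : Fin r → ℕ) (m : ℕ) : (Fin r → ℕ) →+ ZMod m where
  toFun x := (wN a x : ZMod m)
  map_zero' := by simp [wN_zero]
  map_add' x y := by rw [wN_add]; push_cast; rfl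

theorem psi_apply {r : ℕ} (a : Fin r → ℕ) (m : ℕ) (x : Fin r → ℕ) : psi a m x = (wN a x : ZMod m) := rfl

section tile

variable {S : AddSubmonoid ℕ} {r : ℕ} {a : Fin r → ℕ}

theorem wN_mem (hgen : ∀ g, (∃ i, a i = g) ↔ (g ∈ gens S ∧ g ≠ mult S)) (x : Fin r → ℕ) :
    wN a x ∈ S := by
  unfold wN
  refine S.sum_mem fun i _ => ?_
  have h1 : a i ∈ S := ((hgen (a i)).1 ⟨i, rfl⟩).1.1
  have := S.nsmul_mem h1 (x i)
  rw [smul_eq_mul, mul_comm] at this
  exact this

theorem a_gt (hgen : ∀ g, (∃ i, a i = g) ↔ (g ∈ gens S ∧ g ≠ mult S)) (i : Fin r) : mult S < a i := by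
  have h1 := (hgen (a i)).1 ⟨i, rfl⟩
  have := mult_le h1.1.1 h1.1.2.1
  omega

theorem exists_rep (hgen : ∀ g, (∃ i, a i = g) ↔ (g ∈ gens S ∧ g ≠ mult S)) :
    ∀ n, ∀ s ∈ S, s ≤ n → ∃ k x, s = k * mult S + wN a x := by
  intro n
  induction n with
  | zero =>
    intro s _ h
    refine ⟨0, 0, ?_⟩
    rw [wN_zero]
    omega
  | succ n ih =>
    intro s hs hsn
    by_cases h0 : s = 0
    · refine ⟨0, 0, ?_⟩
      rw [wN_zero]
      omega
    by_cases hg : s ∈ gens S
    · by_cases hm : s = mult S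
      · refine ⟨1, 0, ?_⟩
        rw [wN_zero]
        omega
      · obtain ⟨i, hi⟩ := (hgen s).2 ⟨hg, hm⟩
        refine ⟨0, Pi.single i 1, ?_⟩
        rw [wN_single]
        omega
    · have h1 : ∃ x ∈ S, ∃ y ∈ S, x ≠ 0 ∧ y ≠ 0 ∧ x + y = s := by
        by_contra hcon
        push Not at hcon
        exact hg ⟨hs, h0, fun x hx y hy hx0 hy0 => hcon x hx y hy hx0 hy0⟩
      obtain ⟨x, hx, y, hy, hx0, hy0, hxy⟩ := h1
      obtain ⟨k, u, hu⟩ := ih x hx (by omega)
      obtain ⟨l, v, hv⟩ := ih y hy (by omega)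
      refine ⟨k + l, u + v, ?_⟩
      rw [wN_add, add_mul]
      omega

theorem Ap_rep (hS : {n | n ∉ S}.Finite) (hgen : ∀ g, (∃ i, a i = g) ↔ (g ∈ gens S ∧ g ≠ mult S))
    {w : ℕ} (hw : w ∈ Ap S) : ∃ x, wN a x = w := by
  obtain ⟨k, x, h⟩ := exists_rep hgen w w hw.1 le_rfl
  rcases Nat.eq_zero_or_pos k with h0 | h0
  · subst h0
    exact ⟨x, by omega⟩
  · exfalso
    obtain ⟨j, rfl⟩ : ∃ j, k = j + 1 := ⟨k - 1, by omega⟩
    refine hw.2 (j * mult S + wN a x) (S.add_mem (mul_mult_mem hS j) (wN_mem hgen x)) ?_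
    rw [h]
    ring

theorem le_wN (hS : {n | n ∉ S}.Finite) (hgen : ∀ g, (∃ i, a i = g) ↔ (g ∈ gens S ∧ g ≠ mult S))
    (x : Fin r → ℕ) (i : Fin r) : x i ≤ wN a x := by
  have h1 : a i * x i ≤ wN a x :=
    single_le_sum (f := fun i => a i * x i) (fun _ _ => Nat.zero_le _) (mem_univ i)
  have h2 := a_gt hgen i
  have h3 := mult_pos hS
  have h4 : 1 * x i ≤ a i * x i := Nat.mul_le_mul_right _ (by omega)
  omega

/-- normal forms: the lexicographically smallest factorizations of elements of the Apery set -/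
def IsNF (S : AddSubmonoid ℕ) (a : Fin r → ℕ) (x : Fin r → ℕ) : Prop :=
  wN a x ∈ Ap S ∧ ∀ y, wN a y = wN a x → toLex x ≤ toLex y

theorem exists_NF (hS : {n | n ∉ S}.Finite) (hgen : ∀ g, (∃ i, a i = g) ↔ (g ∈ gens S ∧ g ≠ mult S))
    {w : ℕ} (hw : w ∈ Ap S) : ∃ x, IsNF S a x ∧ wN a x = w := by
  classical
  have hne : (((Fintype.piFinset fun _ : Fin r => range (w + 1))).filter fun x => wN a x = w).Nonempty := by
    obtain ⟨x, hx⟩ := Ap_rep hS hgen hw
    refine ⟨x, ?_⟩
    rw [mem_filter, Fintype.mem_piFinset]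
    refine ⟨fun i => ?_, hx⟩
    have := le_wN hS hgen x i
    rw [mem_range]
    omega
  obtain ⟨x, hx, hmin⟩ := exists_min_image _ (fun x : Fin r → ℕ => toLex x) hne
  rw [mem_filter] at hx
  refine ⟨x, ⟨hx.2 ▸ hw, fun y hy => ?_⟩, hx.2⟩
  refine hmin y ?_
  rw [mem_filter, Fintype.mem_piFinset]
  refine ⟨fun i => ?_, hy.trans hx.2⟩
  have := le_wN hS hgen y i
  rw [hy, hx.2] at this
  rw [mem_range]
  omega

theorem IsNF_down (hgen : ∀ g, (∃ i, a i = g) ↔ (g ∈ gens S ∧ g ≠ mult S)) {x : Fin r → ℕ}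
    (hx : IsNF S a x) (y : Fin r → ℕ) (hy : y ≤ x) : IsNF S a y := by
  have hxy : y + (x - y) = x := add_tsub_cancel_of_le hy
  have hw : wN a x = wN a y + wN a (x - y) := by
    rw [← wN_add, hxy]
  refine ⟨⟨wN_mem hgen y, fun s hs h => ?_⟩, fun z hz => ?_⟩
  · refine hx.1.2 (s + wN a (x - y)) (S.add_mem hs (wN_mem hgen _)) ?_
    omega
  · have h1 := hx.2 (z + (x - y)) (by rw [wN_add, hz, hw])
    have h2 : toLex y + toLex (x - y) ≤ toLex z + toLex (x - y) := by
      rw [← toLex_add, ← toLex_add, hxy]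
      exact h1
    exact le_of_add_le_add_right h2

theorem IsNF_single (hS : {n | n ∉ S}.Finite) (hinj : Function.Injective a)
    (hgen : ∀ g, (∃ i, a i = g) ↔ (g ∈ gens S ∧ g ≠ mult S)) (i : Fin r) :
    IsNF S a (Pi.single i 1) := by
  have hg := (hgen (a i)).1 ⟨i, rfl⟩
  have hm := mult_pos hS
  have hw : wN a (Pi.single i 1) = a i := by rw [wN_single, mul_one]
  refine ⟨?_, fun y hy => ?_⟩
  · rw [hw]
    exact gens_Ap hg.1 hg.2 hS
  · have hyi : y = Pi.single i 1 := by
      rw [hw] at hy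
      have hy0 : ∃ j, 1 ≤ y j := by
        by_contra hcon
        push Not at hcon
        have : y = 0 := by
          funext j
          have := hcon j
          rw [Pi.zero_apply]
          omega
        rw [this, wN_zero] at hy
        have := a_gt hgen i
        omega
      obtain ⟨j, hj⟩ := hy0
      have hle : (Pi.single j 1 : Fin r → ℕ) ≤ y := Tile.single_le hj
      have hxy : Pi.single j 1 + (y - Pi.single j 1) = y := add_tsub_cancel_of_le hle
      have hsum : a j + wN a (y - Pi.single j 1) = a i := by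
        rw [← hy]
        conv_rhs => rw [← hxy]
        rw [wN_add, wN_single, mul_one]
      have hz : wN a (y - Pi.single j 1) = 0 := by
        by_contra hne
        have := a_gt hgen j
        exact hg.1.2.2 (a j) ((hgen (a j)).1 ⟨j, rfl⟩).1.1 _ (wN_mem hgen _) (by omega) hne hsum
      have hji : j = i := hinj (by omega)
      have hy1 : y - Pi.single j 1 = 0 := by
        funext l
        have := le_wN hS hgen (y - Pi.single j 1) l
        rw [hz] at this
        rw [Pi.zero_apply]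
        omega
      rw [← hxy, hy1, add_zero, hji]
    rw [hyi]

open Classical in
/-- the set of normal forms -/
noncomputable def nfSet (S : AddSubmonoid ℕ) (a : Fin r → ℕ) : Finset (Fin r → ℕ) :=
  (Fintype.piFinset fun _ : Fin r => range (cond S + mult S)).filter fun x => IsNF S a x

theorem mem_nfSet (hS : {n | n ∉ S}.Finite) (hc : 1 ≤ cond S)
    (hgen : ∀ g, (∃ i, a i = g) ↔ (g ∈ gens S ∧ g ≠ mult S)) (x : Fin r → ℕ) :
    x ∈ nfSet S a ↔ IsNF S a x := by
  classical
  unfold nfSet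
  rw [mem_filter, Fintype.mem_piFinset]
  refine ⟨fun h => h.2, fun h => ⟨fun i => ?_, h⟩⟩
  have h1 := Ap_le hS hc h.1
  have h2 := le_wN hS hgen x i
  rw [mem_range]
  omega

theorem psi_inj (hS : {n | n ∉ S}.Finite) {x y : Fin r → ℕ} (hx : IsNF S a x) (hy : IsNF S a y)
    (h : psi a (mult S) x = psi a (mult S) y) : x = y := by
  rw [psi_apply, psi_apply, ZMod.natCast_eq_natCast_iff] at h
  have hw := Ap_inj hS hx.1 hy.1 h
  have h1 := hx.2 y hw.symm
  have h2 := hy.2 x hw
  exact toLex_inj.1 (le_antisymm h1 h2)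

/-- the tile of a numerical semigroup -/
noncomputable def sgpTile (hS : {n | n ∉ S}.Finite) (hc : 1 ≤ cond S) (hinj : Function.Injective a)
    (hgen : ∀ g, (∃ i, a i = g) ↔ (g ∈ gens S ∧ g ≠ mult S)) : Tile r where
  D := nfSet S a
  a i := (a i : ℝ) / ((cond S + mult S - 1 : ℕ) : ℝ)
  G := ZMod (mult S)
  grp := inferInstance
  ψ := psi a (mult S)
  down x hx y hy := by
    rw [mem_nfSet hS hc hgen] at hx ⊢
    exact IsNF_down hgen hx y hy
  one i := by
    rw [mem_nfSet hS hc hgen]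
    exact IsNF_single hS hinj hgen i
  inj x hx y hy h := by
    rw [mem_nfSet hS hc hgen] at hx hy
    exact psi_inj hS hx hy h
  nf x := by
    obtain ⟨w, hw, hwx⟩ := exists_Ap hS (wN a x)
    obtain ⟨v, hv, hvw⟩ := exists_NF hS hgen hw
    refine ⟨v, (mem_nfSet hS hc hgen v).2 hv, ?_⟩
    rw [psi_apply, psi_apply, ZMod.natCast_eq_natCast_iff, hvw]
    exact hwx
  apos i := by
    have h1 := a_gt hgen i
    have h2 := mult_pos hS
    have h3 : 0 < cond S + mult S - 1 := by omega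
    have h4 : (0 : ℝ) < a i := by
      have : 0 < a i := by omega
      exact_mod_cast this
    have h5 : (0 : ℝ) < ((cond S + mult S - 1 : ℕ) : ℝ) := by exact_mod_cast h3
    positivity
  wle x hx := by
    rw [mem_nfSet hS hc hgen] at hx
    have h1 := Ap_le hS hc hx.1
    have h2 := mult_pos hS
    have h3 : 0 < cond S + mult S - 1 := by omega
    have h5 : (0 : ℝ) < ((cond S + mult S - 1 : ℕ) : ℝ) := by exact_mod_cast h3
    have h6 : ∑ i, (a i : ℝ) / ((cond S + mult S - 1 : ℕ) : ℝ) * (x i : ℝ) =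
        ((wN a x : ℕ) : ℝ) / ((cond S + mult S - 1 : ℕ) : ℝ) := by
      unfold wN
      push_cast
      rw [sum_div]
      refine sum_congr rfl fun i _ => ?_
      ring
    rw [h6, div_le_one h5]
    exact_mod_cast h1

end tile

end Pool.Agent.Helper67.WI
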