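import Mathlib

/-!
# Tilings of `ℤ^r` by down-sets of `ℕ^r`: basic definitions

`D` is a finite down-set of `ℕ^r` containing the unit vectors, `ψ` a homomorphism from `ℕ^r` to a group which is injective on
`D` with full image, `a` positive weights such that the weight of every element of `D` is at most one.
-/

set_option autoImplicit false

namespace Pool.Agent.Helper67.WI

open Finset

/-- A finite down-set which is a set of representatives, with weights. -/
structure Tile (r : ℕ) where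
  D : Finset (Fin r → ℕ)
  a : Fin r → ℝ
  G : Type
  grp : AddCommGroup G
  ψ : (Fin r → ℕ) →+ G
  down : ∀ x ∈ D, ∀ y, y ≤ x → y ∈ D
  one : ∀ i, Pi.single i 1 ∈ D
  inj : ∀ x ∈ D, ∀ y ∈ D, ψ x = ψ y → x = y
  nf : ∀ x, ∃ v ∈ D, ψ v = ψ x
  apos : ∀ i, 0 < a i
  wle : ∀ x ∈ D, ∑ i, a i * x i ≤ 1

attribute [instance] Tile.grp

namespace Tile

variable {r : ℕ} (T : Tile r)

/-- the weight -/
noncomputable def wt (x : Fin r → ℕ) : ℝ := ∑ i, T.a i * x i

/-- the defect of the weight -/
noncomputable def lam (x : Fin r → ℕ) : ℝ := 1 - T.wt x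

theorem wt_add_single (x : Fin r → ℕ) (i : Fin r) (k : ℕ) :
    T.wt (x + Pi.single i k) = T.wt x + T.a i * k := by
  unfold wt
  have h : ∀ j, T.a j * (((x + Pi.single i k : Fin r → ℕ) j : ℕ) : ℝ) =
      T.a j * x j + T.a j * ((Pi.single i k : Fin r → ℕ) j : ℕ) := by
    intro j
    rw [Pi.add_apply]
    push_cast
    ring
  simp only [h, Finset.sum_add_distrib]
  congr 1
  rw [Finset.sum_eq_single i]
  · simp
  · intro j _ hj
    simp [Pi.single_eq_of_ne hj]
  · intro h
    exact absurd (Finset.mem_univ i) h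

theorem lam_add_single (x : Fin r → ℕ) (i : Fin r) (k : ℕ) :
    T.lam (x + Pi.single i k) = T.lam x - T.a i * k := by
  unfold lam
  rw [wt_add_single]
  ring

theorem single_le {x : Fin r → ℕ} {i : Fin r} {k : ℕ} (h : k ≤ x i) :
    (Pi.single i k : Fin r → ℕ) ≤ x := by
  intro j
  by_cases hj : j = i
  · subst hj
    simpa using h
  · simp [Pi.single_eq_of_ne hj]

theorem sub_add {x : Fin r → ℕ} {i : Fin r} {k : ℕ} (h : k ≤ x i) :
    x - Pi.single i k + Pi.single i k = x :=
  tsub_add_cancel_of_le (single_le h)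

theorem lam_sub_single {x : Fin r → ℕ} {i : Fin r} {k : ℕ} (h : k ≤ x i) :
    T.lam (x - Pi.single i k) = T.lam x + T.a i * k := by
  have h1 := T.lam_add_single (x - Pi.single i k) i k
  rw [sub_add h] at h1
  linarith

theorem sub_mem {x : Fin r → ℕ} (hx : x ∈ T.D) (y : Fin r → ℕ) : x - y ∈ T.D :=
  T.down x hx _ tsub_le_self

theorem lam_nonneg {x : Fin r → ℕ} (hx : x ∈ T.D) : 0 ≤ T.lam x := by
  have := T.wle x hx
  unfold lam wt
  linarith

theorem exists_out (i : Fin r) (x : Fin r → ℕ) : ∃ k, x + Pi.single i (k + 1) ∉ T.D := by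
  by_contra h
  push Not at h
  obtain ⟨k, hk⟩ := exists_nat_gt ((T.lam x) / T.a i)
  have h1 := T.lam_nonneg (h k)
  rw [lam_add_single] at h1
  have h2 := T.apos i
  rw [div_lt_iff₀ h2] at hk
  push_cast at h1
  nlinarith

open Classical in
/-- number of steps to the end of the line -/
noncomputable def len (i : Fin r) (x : Fin r → ℕ) : ℕ := Nat.find (T.exists_out i x)

theorem len_out (i : Fin r) (x : Fin r → ℕ) : x + Pi.single i (T.len i x + 1) ∉ T.D := by
  classical
  exact Nat.find_spec (T.exists_out i x)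

theorem len_mem {x : Fin r → ℕ} (hx : x ∈ T.D) (i : Fin r) : x + Pi.single i (T.len i x) ∈ T.D := by
  classical
  rcases Nat.eq_zero_or_pos (T.len i x) with h | h
  · rw [h]
    simpa using hx
  · have h1 : T.len i x - 1 < T.len i x := by omega
    have h2 := Nat.find_min (T.exists_out i x) h1
    have h3 : T.len i x - 1 + 1 = T.len i x := by omega
    rw [h3] at h2
    exact not_not.1 h2

theorem single_mono {i : Fin r} {k l : ℕ} (h : k ≤ l) : (Pi.single i k : Fin r → ℕ) ≤ Pi.single i l := by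
  intro j
  by_cases hj : j = i
  · subst hj
    simpa using h
  · simp [Pi.single_eq_of_ne hj]

theorem mem_iff {x : Fin r → ℕ} (hx : x ∈ T.D) (i : Fin r) (k : ℕ) :
    x + Pi.single i k ∈ T.D ↔ k ≤ T.len i x := by
  constructor
  · intro h
    by_contra hk
    push Not at hk
    refine T.len_out i x (T.down _ h _ ?_)
    exact add_le_add_right (single_mono hk) x
  · intro h
    exact T.down _ (T.len_mem hx i) _ (add_le_add_right (single_mono h) x)

/-- the loss in direction `i` -/
noncomputable def tt (i : Fin r) (x : Fin r → ℕ) : ℝ := T.lam x - T.a i * T.len i x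

theorem tt_nonneg {x : Fin r → ℕ} (hx : x ∈ T.D) (i : Fin r) : 0 ≤ T.tt i x := by
  have := T.lam_nonneg (T.len_mem hx i)
  rw [lam_add_single] at this
  exact this

theorem lam_eq (i : Fin r) (x : Fin r → ℕ) : T.lam x = T.a i * T.len i x + T.tt i x := by
  unfold tt
  ring

theorem sum_len (i : Fin r) : ∑ x ∈ T.D, T.len i x = ∑ x ∈ T.D, x i := by
  have h1 : ∑ x ∈ T.D, T.len i x = (T.D.sigma fun x => range (T.len i x)).card := by
    rw [card_sigma]
    simp
  have h2 : ∑ x ∈ T.D, x i = (T.D.sigma fun x => range (x i)).card := by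
    rw [card_sigma]
    simp
  rw [h1, h2]
  refine card_bij (fun p _ => ⟨p.1 + Pi.single i (p.2 + 1), p.2⟩) ?_ ?_ ?_
  · rintro ⟨x, k⟩ h
    rw [mem_sigma, mem_range] at h ⊢
    refine ⟨(T.mem_iff h.1 i _).2 h.2, ?_⟩
    show k < (x + Pi.single i (k + 1) : Fin r → ℕ) i
    simp
    omega
  · rintro ⟨x, k⟩ _ ⟨y, l⟩ _ h
    simp only [Sigma.mk.injEq] at h
    obtain ⟨h3, h4⟩ := h
    have h4 : k = l := eq_of_heq h4
    subst h4
    have := add_right_cancel h3
    rw [this]
  · rintro ⟨y, k⟩ h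
    rw [mem_sigma, mem_range] at h
    obtain ⟨hy, hk⟩ := h
    have hk' : k + 1 ≤ y i := hk
    refine ⟨⟨y - Pi.single i (k + 1), k⟩, ?_, ?_⟩
    · rw [mem_sigma, mem_range]
      refine ⟨T.sub_mem hy _, ?_⟩
      have h5 := (T.mem_iff (T.sub_mem hy (Pi.single i (k + 1))) i (k + 1)).1 (by rw [sub_add hk']; exact hy)
      exact h5
    · simp only [sub_add hk']

/-- the sum of the losses -/
theorem sum_tt : ∑ i, ∑ x ∈ T.D, T.tt i x = (r + 1) * ∑ x ∈ T.D, T.lam x - T.D.card := by
  have h1 : ∀ i, ∑ x ∈ T.D, T.tt i x = ∑ x ∈ T.D, T.lam x - T.a i * ∑ x ∈ T.D, (x i : ℝ) := by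
    intro i
    unfold tt
    rw [sum_sub_distrib, ← mul_sum]
    have := T.sum_len i
    have h2 : (∑ x ∈ T.D, (T.len i x : ℝ)) = ∑ x ∈ T.D, (x i : ℝ) := by exact_mod_cast this
    rw [h2]
  simp only [h1, sum_sub_distrib]
  have h3 : ∑ i, T.a i * ∑ x ∈ T.D, (x i : ℝ) = ∑ x ∈ T.D, T.wt x := by
    unfold wt
    rw [sum_comm]
    refine sum_congr rfl fun i _ => ?_
    rw [mul_sum]
  have h4 : ∑ x ∈ T.D, T.wt x = T.D.card - ∑ x ∈ T.D, T.lam x := by
    unfold lam
    rw [sum_sub_distrib]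
    simp
  rw [h3, h4]
  simp
  ring

end Tile

end Pool.Agent.Helper67.WI
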