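import Pool.Agent.Helper67.WI.Fine2
import Pool.Agent.Helper67.WI.Coarse

/-!
# The sum of the losses is large unless `D = {0, e_1, .., e_r}`
-/

set_option autoImplicit false

namespace Pool.Agent.Helper67.WI

open Finset

/-- the scale of the fine case -/
noncomputable def nuW (r : ℕ) : ℝ := (1 / (144 * (r : ℝ) ^ 4)) ^ r / 16

/-- the constant of the main inequality -/
noncomputable def epsW (r : ℕ) : ℝ := nuW r / 8 * ((nuW r / 3) ^ r / (8 * r))

theorem nuW_pos {r : ℕ} (hr : 1 ≤ r) : 0 < nuW r := by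
  have : (0 : ℝ) < r := by exact_mod_cast hr
  unfold nuW
  positivity

theorem epsW_pos {r : ℕ} (hr : 1 ≤ r) : 0 < epsW r := by
  have : (0 : ℝ) < r := by exact_mod_cast hr
  have := nuW_pos hr
  unfold epsW
  positivity

theorem nuW_le {r : ℕ} (hr : 2 ≤ r) : (r + 1) * nuW r ≤ 1 := by
  have hr2 : (2 : ℝ) ≤ r := by exact_mod_cast hr
  have hr0 : (0 : ℝ) < r := by linarith
  have h1 : (r : ℝ) ≤ r ^ 4 := by
    calc (r : ℝ) = r ^ 1 := by ring
      _ ≤ r ^ 4 := pow_le_pow_right₀ (by linarith) (by norm_num)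
  have h2 : 1 / (144 * (r : ℝ) ^ 4) ≤ 1 := by
    rw [div_le_iff₀ (by positivity)]
    linarith
  have h3 : (1 / (144 * (r : ℝ) ^ 4)) ^ r ≤ 1 / (144 * (r : ℝ) ^ 4) := by
    calc (1 / (144 * (r : ℝ) ^ 4)) ^ r ≤ (1 / (144 * (r : ℝ) ^ 4)) ^ 1 :=
          pow_le_pow_of_le_one (by positivity) h2 (by omega)
      _ = _ := pow_one _
  have h4 : nuW r ≤ 1 / (144 * (r : ℝ) ^ 4) / 16 := by
    unfold nuW
    linarith
  have h5 : ((r : ℝ) + 1) * (1 / (144 * (r : ℝ) ^ 4) / 16) ≤ 1 := by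
    rw [div_div, mul_one_div, div_le_iff₀ (by positivity)]
    nlinarith
  have h6 : ((r : ℝ) + 1) * nuW r ≤ (r + 1) * (1 / (144 * (r : ℝ) ^ 4) / 16) :=
    mul_le_mul_of_nonneg_left h4 (by linarith)
  linarith

namespace Tile

variable {r : ℕ} (T : Tile r)

theorem Bad_card_le {κ : ℝ} : κ * (T.Bad κ).card ≤ ∑ i, ∑ x ∈ T.D, T.tt i x := by
  classical
  rw [sum_comm]
  have h1 : ∑ _x ∈ T.Bad κ, κ ≤ ∑ x ∈ T.Bad κ, ∑ i, T.tt i x := by
    refine sum_le_sum fun x hx => ?_
    obtain ⟨hxD, i, hi⟩ := (T.mem_Bad κ x).1 hx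
    exact hi.trans (single_le_sum (f := fun i => T.tt i x) (fun i _ => T.tt_nonneg hxD i) (mem_univ i))
  have h2 : ∑ x ∈ T.Bad κ, ∑ i, T.tt i x ≤ ∑ x ∈ T.D, ∑ i, T.tt i x := by
    refine sum_le_sum_of_subset_of_nonneg (fun x hx => ((T.mem_Bad κ x).1 hx).1) ?_
    intro x hx _
    exact sum_nonneg fun i _ => T.tt_nonneg hx i
  rw [sum_const, nsmul_eq_mul] at h1
  linarith

theorem card_le_of_ge {ρ : ℝ} (hρ : 0 < ρ) (ha : ∀ i, ρ ≤ T.a i) : T.D.card ≤ (⌊1 / ρ⌋₊ + 1) ^ r := by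
  have hsub : T.D ⊆ Fintype.piFinset fun _ : Fin r => range (⌊1 / ρ⌋₊ + 1) := by
    intro x hx
    rw [Fintype.mem_piFinset]
    intro i
    rw [mem_range]
    have h1 : T.a i * x i ≤ 1 := by
      have h2 := T.wle x hx
      have h3 : T.a i * x i ≤ ∑ i, T.a i * (x i : ℝ) :=
        single_le_sum (f := fun i => T.a i * (x i : ℝ))
          (fun i _ => mul_nonneg (T.apos i).le (Nat.cast_nonneg _)) (mem_univ i)
      linarith
    have h2 : (x i : ℝ) ≤ 1 / ρ := by
      rw [le_div_iff₀ hρ]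
      have h3 : (0 : ℝ) ≤ x i := Nat.cast_nonneg _
      have := mul_le_mul_of_nonneg_right (ha i) h3
      linarith
    have := Nat.le_floor h2
    omega
  have h1 := card_le_card hsub
  rw [Fintype.card_piFinset] at h1
  simpa using h1

/-- The main inequality for tiles. -/
theorem main (hr : 2 ≤ r) (hcard : r + 1 < T.D.card) :
    epsW r * T.D.card ≤ ∑ i, ∑ x ∈ T.D, T.tt i x := by
  by_contra hcon
  push Not at hcon
  have hr1 : 1 ≤ r := by omega
  have hr2 : (2 : ℝ) ≤ r := by exact_mod_cast hr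
  have hr0 : (0 : ℝ) < r := by linarith
  have hD' : (0 : ℝ) < T.D.card := by
    have : 0 < T.D.card := by omega
    exact_mod_cast this
  set ν := nuW r with hν
  have hν0 : 0 < ν := nuW_pos hr1
  have hν1 : ((r : ℝ) + 1) * ν ≤ 1 := nuW_le hr
  have hν2 : ν ≤ 1 := by nlinarith
  set κ := ν / 8 with hκ
  have hκ0 : 0 < κ := by positivity
  set β := (ν / 3) ^ r / (8 * r) with hβ
  have hβ0 : 0 < β := by positivity
  have hεβ : epsW r = κ * β := rfl
  have hp1 : (ν / 3) ^ r ≤ 1 := pow_le_one₀ (by positivity) (by linarith)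
  have hβ1 : 8 * r * β ≤ 1 := by
    rw [hβ, mul_div_assoc', mul_div_cancel_left₀ _ (by positivity)]
    exact hp1
  -- few bad elements
  have hBad : ((T.Bad κ).card : ℝ) < β * T.D.card := by
    have h1 := T.Bad_card_le (κ := κ)
    have h2 : κ * (T.Bad κ).card < κ * (β * T.D.card) := by
      rw [hεβ] at hcon
      linarith
    exact lt_of_mul_lt_mul_left h2 hκ0.le
  have hB8 : 8 * r * (T.Bad κ).card ≤ T.D.card := by
    have h1 : 8 * (r : ℝ) * (T.Bad κ).card ≤ T.D.card := by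
      have h2 := mul_le_mul_of_nonneg_left hBad.le (by positivity : (0 : ℝ) ≤ 8 * r)
      have h3 := mul_le_mul_of_nonneg_right hβ1 hD'.le
      linarith
    exact_mod_cast h1
  have hBn : 2 * (r + 1) * (T.Bad κ).card < T.D.card := by
    have h1 : 2 * ((r : ℝ) + 1) * (T.Bad κ).card < T.D.card := by
      have h2 : 2 * ((r : ℝ) + 1) * (T.Bad κ).card ≤ 2 * (r + 1) * (β * T.D.card) :=
        mul_le_mul_of_nonneg_left hBad.le (by positivity)
      have h4 : 2 * ((r : ℝ) + 1) * β < 1 := by nlinarith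
      have h5 := mul_lt_mul_of_pos_right h4 hD'
      linarith
    exact_mod_cast h1
  -- all weights are nearly equal
  have hnear : ∀ i j, T.a i < T.a j + 2 * κ := by
    intro i j
    by_contra h
    push Not at h
    exact T.near hκ0 (by rw [hκ]; nlinarith) h hBn
  by_cases hfine : ∀ i, T.a i ≤ ν
  · refine T.fine hr hfine hκ0 (by rw [hκ]; linarith) (σ := 1 / (144 * (r : ℝ) ^ 4)) (by positivity) ?_ ?_ hB8
    · rw [mul_one_div, div_self (by positivity)]
    · rw [hν]
      unfold nuW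
      linarith
  · push Not at hfine
    obtain ⟨i₀, hi₀⟩ := hfine
    have ha : ∀ i, ν / 2 ≤ T.a i := by
      intro i
      have := hnear i₀ i
      rw [hκ] at this
      linarith
    have hm := T.card_le_of_ge (by positivity : (0 : ℝ) < ν / 2) ha
    have hm' : (T.D.card : ℝ) ≤ (3 / ν) ^ r := by
      have h1 : ((⌊1 / (ν / 2)⌋₊ : ℕ) : ℝ) + 1 ≤ 3 / ν := by
        have h2 : ((⌊1 / (ν / 2)⌋₊ : ℕ) : ℝ) ≤ 1 / (ν / 2) := Nat.floor_le (by positivity)
        have h3 : 1 ≤ 1 / ν := by rw [le_div_iff₀ hν0]; linarith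
        have h4 : 1 / (ν / 2) = 2 / ν := by field_simp
        have h5 : 3 / ν = 2 / ν + 1 / ν := by ring
        rw [h4] at h2
        rw [h5]
        rw [h4]
        linarith
      calc (T.D.card : ℝ) ≤ ((⌊1 / (ν / 2)⌋₊ : ℕ) + 1 : ℝ) ^ r := by exact_mod_cast hm
        _ ≤ (3 / ν) ^ r := pow_le_pow_left₀ (by positivity) h1 r
    have hB0 : (T.Bad κ).card = 0 := by
      have h1 : β * T.D.card ≤ β * (3 / ν) ^ r := mul_le_mul_of_nonneg_left hm' hβ0.le
      have h2 : β * (3 / ν) ^ r = 1 / (8 * r) := by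
        rw [hβ, div_mul_eq_mul_div, ← mul_pow]
        have : ν / 3 * (3 / ν) = 1 := by field_simp
        rw [this, one_pow]
      have h3 : 1 / (8 * (r : ℝ)) < 1 := by
        rw [div_lt_one (by positivity)]
        linarith
      have h4 : ((T.Bad κ).card : ℝ) < 1 := by linarith
      have h5 : (T.Bad κ).card < 1 := by exact_mod_cast h4
      omega
    have hBe : T.Bad κ = ∅ := card_eq_zero.1 hB0
    have := T.coarse hr (κ := κ) (fun i => by have := ha i; rw [hκ]; linarith) (by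
      intro x hx i
      exact T.not_Bad hx (by rw [hBe]; exact notMem_empty x) i)
    omega

end Tile

end Pool.Agent.Helper67.WI
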